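import Pool.Agent.H.MP_a6405b_nt.helper62.Good

/-!
MP_a6405b_nt (helper62), module Baire: the set of good triples is comeagre.
-/

set_option autoImplicit false

namespace Pool.A6405.HX

open Filter Topology

/-- signed distance vector to the nearest integers -/
noncomputable def dv (ξ : Fin 3 → ℝ) (q : ℕ) : Fin 3 → ℝ :=
  fun j => (q : ℝ) * ξ j - round ((q : ℝ) * ξ j)

lemma continuous_nn : Continuous fun y : ℝ => |y - round y| := by
  have h : (fun y : ℝ => |y - round y|) = fun y : ℝ => ‖(y : UnitAddCircle)‖ := by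
    funext y
    rw [UnitAddCircle.norm_eq]
  rw [h]
  exact continuous_norm.comp (AddCircle.continuous_mk' 1)

lemma continuous_dv (q : ℕ) (j : Fin 3) : Continuous fun ξ : Fin 3 → ℝ => |dv ξ q j| :=
  continuous_nn.comp (continuous_const.mul (continuous_apply j))

lemma norm_dv (ξ : Fin 3 → ℝ) (q : ℕ) : ‖dv ξ q‖ = ‖fun j => |dv ξ q j|‖ := by
  refine le_antisymm ?_ ?_
  · refine (pi_norm_le_iff_of_nonneg (norm_nonneg _)).mpr fun j => ?_
    have := norm_le_pi_norm (fun j => |dv ξ q j|) j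
    simpa using this
  · refine (pi_norm_le_iff_of_nonneg (norm_nonneg _)).mpr fun j => ?_
    have := norm_le_pi_norm (dv ξ q) j
    simpa using this

lemma continuous_norm_dv (q : ℕ) : Continuous fun ξ : Fin 3 → ℝ => ‖dv ξ q‖ := by
  have h : (fun ξ : Fin 3 → ℝ => ‖dv ξ q‖) = fun ξ : Fin 3 → ℝ => ‖fun j => |dv ξ q j|‖ := by
    funext ξ; exact norm_dv ξ q
  rw [h]
  exact continuous_norm.comp (continuous_pi fun j => continuous_dv q j)

/-- the truncated product -/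
noncomputable def tp (η : ℝ) (Q : ℕ) (ξ : Fin 3 → ℝ) (q : ℕ) : ℝ :=
  (Q : ℝ) * ∏ i, max |dv ξ q i| ((Q : ℝ) ^ (-(1 / 2 : ℝ) + η) * ‖dv ξ q‖)

lemma continuous_tp (η : ℝ) (Q q : ℕ) : Continuous fun ξ => tp η Q ξ q := by
  unfold tp
  refine continuous_const.mul (continuous_finset_prod _ fun i _ => ?_)
  exact (continuous_dv q i).max (continuous_const.mul (continuous_norm_dv q))

lemma tp_mono {η η' : ℝ} (h : η ≤ η') (Q : ℕ) (hQ : 1 ≤ Q) (ξ : Fin 3 → ℝ) (q : ℕ) :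
    tp η Q ξ q ≤ tp η' Q ξ q := by
  unfold tp
  have hQ' : (1 : ℝ) ≤ Q := by exact_mod_cast hQ
  refine mul_le_mul_of_nonneg_left ?_ (by positivity)
  refine Finset.prod_le_prod (fun i _ => (abs_nonneg _).trans (le_max_left _ _)) ?_
  intro i _
  refine max_le_max le_rfl (mul_le_mul_of_nonneg_right ?_ (norm_nonneg _))
  exact Real.rpow_le_rpow_of_exponent_le hQ' (by linarith)

/-- good triples at level `Q` -/
def G (η : ℝ) (Q : ℕ) : Set (Fin 3 → ℝ) :=
  {ξ | ∀ q ∈ Finset.Icc 1 Q, (1 : ℝ) / 1000 < tp η Q ξ q}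

lemma isOpen_G (η : ℝ) (Q : ℕ) : IsOpen (G η Q) := by
  have : G η Q = ⋂ q ∈ Finset.Icc 1 Q, {ξ | (1 : ℝ) / 1000 < tp η Q ξ q} := by
    ext ξ
    simp only [G, Set.mem_setOf_eq, Set.mem_iInter]
  rw [this]
  exact isOpen_biInter_finset fun q _ => isOpen_lt continuous_const (continuous_tp η Q q)

lemma dense_G (η : ℝ) (hη : 0 < η) (hη' : η ≤ 1 / 4) (n : ℕ) :
    Dense (⋃ Q ∈ Set.Ici (max n 1), G η Q) := by
  rw [Metric.dense_iff]
  intro ξs ρ hρ
  obtain ⟨ξ, hξ, Q, hQ0, hQ1, hQ⟩ := dense_step η hη hη' ξs ρ hρ n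
  refine ⟨ξ, ?_, ?_⟩
  · rw [Metric.mem_ball, dist_pi_lt_iff hρ]
    intro j
    rw [Real.dist_eq]
    exact hξ j
  · simp only [Set.mem_iUnion, Set.mem_Ici]
    refine ⟨Q, max_le hQ0 hQ1, ?_⟩
    intro q hq
    obtain ⟨h1, h2⟩ := Finset.mem_Icc.mp hq
    have h := hQ q h1 h2 ‖dv ξ q‖ (fun j => by
      have := norm_le_pi_norm (dv ξ q) j
      simpa [dv] using this)
    have e : 800 * (Q : ℝ) * ∏ i, max |(q : ℝ) * ξ i - round ((q : ℝ) * ξ i)|
          ((Q : ℝ) ^ (-(1 / 2 : ℝ) + η) * ‖dv ξ q‖) = 800 * tp η Q ξ q := by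
      unfold tp dv
      ring
    rw [e] at h
    linarith

theorem residual_good : ∀ᶠ ξ in residual (Fin 3 → ℝ), ∀ η : ℝ, 0 < η →
    ∃ᶠ Q : ℕ in atTop, ∀ q : ℕ, 1 ≤ q → q ≤ Q → (1 : ℝ) / 1000 ≤ tp η Q ξ q := by
  have h : ∀ m n : ℕ, (⋃ Q ∈ Set.Ici (max n 1), G (1 / ((m : ℝ) + 4)) Q) ∈
      residual (Fin 3 → ℝ) := by
    intro m n
    refine residual_of_dense_open ?_ ?_
    · exact isOpen_biUnion fun Q _ => isOpen_G _ Q
    · refine dense_G _ (by positivity) ?_ n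
      rw [div_le_div_iff₀ (by positivity) (by norm_num)]
      have : (0 : ℝ) ≤ m := by positivity
      linarith
  have h2 : ∀ᶠ ξ in residual (Fin 3 → ℝ), ∀ m n : ℕ,
      ξ ∈ ⋃ Q ∈ Set.Ici (max n 1), G (1 / ((m : ℝ) + 4)) Q := by
    rw [eventually_countable_forall]
    intro m
    rw [eventually_countable_forall]
    intro n
    exact h m n
  filter_upwards [h2] with ξ hξ η hη
  rw [frequently_atTop]
  intro n
  obtain ⟨m, hm⟩ := exists_nat_gt (1 / η)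
  have h3 := hξ m n
  simp only [Set.mem_iUnion, Set.mem_Ici] at h3
  obtain ⟨Q, hQ, hG⟩ := h3
  refine ⟨Q, (le_max_left _ _).trans hQ, ?_⟩
  intro q hq1 hq2
  have h4 := hG q (Finset.mem_Icc.mpr ⟨hq1, hq2⟩)
  have h5 : 1 / ((m : ℝ) + 4) ≤ η := by
    rw [div_le_iff₀ (by positivity)]
    rw [div_lt_iff₀ hη] at hm
    nlinarith
  exact h4.le.trans (tp_mono h5 Q ((le_max_right _ _).trans hQ) ξ q)

end Pool.A6405.HX
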