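import Pool.Agent.H.MP_a6405b_nt.helper62.Ineq

/-!
MP_a6405b_nt (helper62), module Dens: good triples near any given triple.
-/

set_option autoImplicit false

namespace Pool.A6405.HX

lemma off_le {e X s : ℝ} (hs : 0 < s) (hX : s ^ 2 = X) (h : |e| ^ 2 * X ≤ 3) : |e| ≤ 2 / s := by
  rw [le_div_iff₀ hs]
  have h1 : (|e| * s) ^ 2 ≤ 2 ^ 2 := by
    rw [mul_pow, hX]; linarith
  exact (abs_le_of_sq_le_sq' h1 (by norm_num)).2

/-- the basis -/
lemma diag_of_BU {X s : ℝ} {u1 u2 u3 v n2 : Fin 3 → ℤ} {S : ℕ} (hB : BU X u1 u2 u3 v)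
    (hs : 1 ≤ s) (hX : s ^ 2 = X) (hS : 1 ≤ S) (hn : ∀ i, |ev n2 i| ≤ S) (hn0 : n2 ≠ 0)
    (hδ : 8 * (S : ℝ) ^ 2 ≤ s ^ 3) :
    Diag ![u1, mul u2 n2, u3] ![X, X * |ev n2 1|, X] (2 * (S : ℝ) ^ 2 / s ^ 3) ∧
    1 ≤ (S : ℝ) ^ 2 * |ev n2 1| := by
  have hs0 : 0 < s := by linarith
  have hXp : 0 < X := by rw [← hX]; positivity
  have hS' : (1 : ℝ) ≤ S := by exact_mod_cast hS
  have hS2 : (1 : ℝ) ≤ (S : ℝ) ^ 2 := one_le_pow₀ hS'
  have hSS : (S : ℝ) ≤ (S : ℝ) ^ 2 := by nlinarith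
  have hnn := one_le_abs_ev n2 hn0
  have h1 : 1 ≤ (S : ℝ) ^ 2 * |ev n2 1| := by
    calc (1 : ℝ) ≤ |ev n2 0| * |ev n2 1| * |ev n2 2| := hnn
      _ ≤ S * |ev n2 1| * S := by
          refine mul_le_mul (mul_le_mul_of_nonneg_right (hn 0) (abs_nonneg _)) (hn 2)
            (abs_nonneg _) (by positivity)
      _ = (S : ℝ) ^ 2 * |ev n2 1| := by ring
  have hev : 0 < |ev n2 1| := by
    by_contra hc
    have : |ev n2 1| = 0 := le_antisymm (not_lt.mp hc) (abs_nonneg _)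
    rw [this] at h1
    linarith
  have hdX : 2 * (S : ℝ) ^ 2 / s ^ 3 * X = 2 / s * (S : ℝ) ^ 2 := by
    rw [← hX]; field_simp
  have hdX1 : 2 * (S : ℝ) ^ 2 / s ^ 3 * (X * |ev n2 1|) = 2 / s * ((S : ℝ) ^ 2 * |ev n2 1|) := by
    rw [← hX]; field_simp
  have h2s : 0 < 2 / s := by positivity
  have a1 : 2 / s ≤ 2 / s * (S : ℝ) ^ 2 := by nlinarith
  have a2 : 2 / s ≤ 2 / s * ((S : ℝ) ^ 2 * |ev n2 1|) := by nlinarith
  have a3 : 2 / s * S ≤ 2 / s * (S : ℝ) ^ 2 := by nlinarith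
  refine ⟨⟨?_, ?_, ?_, by positivity, ?_⟩, h1⟩
  · intro i
    fin_cases i
    · exact hXp
    · exact mul_pos hXp hev
    · exact hXp
  · intro i
    fin_cases i
    · exact hB.d1
    · show |ev (mul u2 n2) 1| = X * |ev n2 1|
      rw [ev_mul, abs_mul, hB.d2]
    · exact hB.d3
  · intro i j hij
    fin_cases i <;> fin_cases j
    · exact absurd rfl hij
    · show |ev (mul u2 n2) 0| ≤ 2 * (S : ℝ) ^ 2 / s ^ 3 * X
      rw [ev_mul, abs_mul, hdX]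
      refine le_trans ?_ a3
      exact mul_le_mul (off_le hs0 hX hB.o20) (hn 0) (abs_nonneg _) h2s.le
    · show |ev u3 0| ≤ 2 * (S : ℝ) ^ 2 / s ^ 3 * X
      rw [hdX]
      exact (off_le hs0 hX hB.o30).trans a1
    · show |ev u1 1| ≤ 2 * (S : ℝ) ^ 2 / s ^ 3 * (X * |ev n2 1|)
      rw [hdX1]
      exact (off_le hs0 hX hB.o11).trans a2
    · exact absurd rfl hij
    · show |ev u3 1| ≤ 2 * (S : ℝ) ^ 2 / s ^ 3 * (X * |ev n2 1|)
      rw [hdX1]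
      exact (off_le hs0 hX hB.o31).trans a2
    · show |ev u1 2| ≤ 2 * (S : ℝ) ^ 2 / s ^ 3 * X
      rw [hdX]
      exact (off_le hs0 hX hB.o12).trans a1
    · show |ev (mul u2 n2) 2| ≤ 2 * (S : ℝ) ^ 2 / s ^ 3 * X
      rw [ev_mul, abs_mul, hdX]
      refine le_trans ?_ a3
      exact mul_le_mul (off_le hs0 hX hB.o22) (hn 2) (abs_nonneg _) h2s.le
    · exact absurd rfl hij
  · rw [div_le_iff₀ (by positivity)]
    linarith

/-- the asymptotic bookkeeping -/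
lemma asymp (η : ℝ) (hη : 0 < η) (hη' : η ≤ 1 / 4) (ρ : ℝ) (hρ : 0 < ρ) (Q0 : ℕ) :
    ∃ s0 : ℝ, 1 ≤ s0 ∧ ∀ (s : ℝ), s0 ≤ s → ∀ (S : ℕ), 1 ≤ S →
      (∀ K : ℕ, (S : ℝ) ^ K ≤ cK K * (200 * s ^ 4 + 1)) →
      8 * (S : ℝ) ^ 2 ≤ s ^ 3 ∧
      ∀ (Jn N : ℝ), 0 ≤ Jn → (∀ K : ℕ, Jn ^ K ≤ cK K * N) → N ≤ 2 * s ^ 6 * S →
        s ^ 6 ≤ 14.8 * (S : ℝ) ^ 2 * N →
        28 * Jn ^ 2 * (S : ℝ) ^ 2 / s ^ 2 < ρ ∧ (Q0 : ℝ) + 2 ≤ N ∧
        2 * (S : ℝ) ^ 2 / s ^ 3 ≤ (N - 1) ^ (-(1 / 2 : ℝ) + η) := by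
  obtain ⟨K1, hK1⟩ := exists_nat_gt (5 / η)
  obtain ⟨K2, hK2⟩ := exists_nat_gt (8 / η)
  have hK1' : 5 < K1 * η := by rwa [div_lt_iff₀ hη] at hK1
  have hK2' : 8 < K2 * η := by rwa [div_lt_iff₀ hη] at hK2
  have hK10 : K1 ≠ 0 := by
    rintro rfl
    norm_num at hK1'
  have hK20 : K2 ≠ 0 := by
    rintro rfl
    norm_num at hK2'
  set A1 : ℝ := 201 * cK K1 with hA1
  set A2 : ℝ := 2 * cK K2 with hA2
  set A3 : ℝ := 28 / ρ + 1 with hA3
  set A4 : ℝ := 15 * (Q0 + 2) with hA4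
  set A5 : ℝ := (4 : ℝ) ^ (1 / (3 * η)) with hA5
  refine ⟨max 3 (max A1 (max A2 (max A3 (max A4 A5)))), ?_, ?_⟩
  · exact le_trans (by norm_num) (le_max_left _ _)
  intro s hs S hS hSK
  have s3 : 3 ≤ s := (le_max_left _ _).trans hs
  have hs1 := (le_max_right _ _).trans hs
  have sA1 : A1 ≤ s := (le_max_left _ _).trans hs1
  have hs2 := (le_max_right _ _).trans hs1
  have sA2 : A2 ≤ s := (le_max_left _ _).trans hs2
  have hs3 := (le_max_right _ _).trans hs2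
  have sA3 : A3 ≤ s := (le_max_left _ _).trans hs3
  have hs4 := (le_max_right _ _).trans hs3
  have sA4 : A4 ≤ s := (le_max_left _ _).trans hs4
  have sA5 : A5 ≤ s := (le_max_right _ _).trans hs4
  have s0 : 0 < s := by linarith
  have s1 : 1 ≤ s := by linarith
  have hS' : (1 : ℝ) ≤ S := by exact_mod_cast hS
  -- S ≤ s ^ η
  have hSη : (S : ℝ) ≤ s ^ η := by
    have h1 : (S : ℝ) ^ K1 ≤ (s ^ η) ^ K1 := by
      calc (S : ℝ) ^ K1 ≤ cK K1 * (200 * s ^ 4 + 1) := hSK K1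
        _ ≤ cK K1 * (201 * s ^ 4) := by
            have : (1 : ℝ) ≤ s ^ 4 := one_le_pow₀ s1
            gcongr; linarith
        _ = A1 * s ^ 4 := by rw [hA1]; ring
        _ ≤ s * s ^ 4 := by gcongr
        _ = s ^ (5 : ℝ) := by
            rw [← pow_succ']; norm_cast
        _ ≤ s ^ (η * K1) := Real.rpow_le_rpow_of_exponent_le s1 (by linarith)
        _ = (s ^ η) ^ K1 := by rw [Real.rpow_mul s0.le, Real.rpow_natCast]
    exact le_of_pow_le_pow_left₀ hK10 (by positivity) h1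
  have hη1 : s ^ η ≤ s := by
    calc s ^ η ≤ s ^ (1 : ℝ) := Real.rpow_le_rpow_of_exponent_le s1 (by linarith)
      _ = s := Real.rpow_one s
  have hη4 : (s ^ η) ^ 4 ≤ s := by
    rw [← Real.rpow_natCast, ← Real.rpow_mul s0.le]
    calc s ^ (η * (4 : ℕ)) ≤ s ^ (1 : ℝ) :=
          Real.rpow_le_rpow_of_exponent_le s1 (by push_cast; linarith)
      _ = s := Real.rpow_one s
  have hη0 : 1 ≤ s ^ η := Real.one_le_rpow s1 hη.le
  have hη2 : (s ^ η) ^ 2 ≤ s := by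
    refine le_trans ?_ hη4
    exact pow_le_pow_right₀ hη0 (by norm_num)
  have hS2 : (S : ℝ) ^ 2 ≤ s := le_trans (by gcongr) hη2
  refine ⟨?_, ?_⟩
  · have h9 : 8 ≤ s ^ 2 := by nlinarith
    calc 8 * (S : ℝ) ^ 2 ≤ 8 * s := by linarith
      _ ≤ s ^ 2 * s := by gcongr
      _ = s ^ 3 := by ring
  intro Jn N hJ0 hJK hN1 hN2
  have hN0 : 0 < N := by
    by_contra hc
    have : 14.8 * (S : ℝ) ^ 2 * N ≤ 0 :=
      mul_nonpos_of_nonneg_of_nonpos (by positivity) (not_lt.mp hc)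
    have h6 : 0 < s ^ 6 := by positivity
    linarith
  have hJη : Jn ≤ s ^ η := by
    have h1 : Jn ^ K2 ≤ (s ^ η) ^ K2 := by
      calc Jn ^ K2 ≤ cK K2 * N := hJK K2
        _ ≤ cK K2 * (2 * s ^ 6 * S) := by gcongr
        _ ≤ cK K2 * (2 * s ^ 6 * s) := by gcongr; exact hSη.trans hη1
        _ = A2 * s ^ 7 := by rw [hA2]; ring
        _ ≤ s * s ^ 7 := by gcongr
        _ = s ^ (8 : ℝ) := by
            rw [← pow_succ']; norm_cast
        _ ≤ s ^ (η * K2) := Real.rpow_le_rpow_of_exponent_le s1 (by linarith)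
        _ = (s ^ η) ^ K2 := by rw [Real.rpow_mul s0.le, Real.rpow_natCast]
    exact le_of_pow_le_pow_left₀ hK20 (by positivity) h1
  refine ⟨?_, ?_, ?_⟩
  · have h1 : Jn ^ 2 * (S : ℝ) ^ 2 ≤ s := by
      calc Jn ^ 2 * (S : ℝ) ^ 2 ≤ (s ^ η) ^ 2 * (s ^ η) ^ 2 := by gcongr
        _ = (s ^ η) ^ 4 := by ring
        _ ≤ s := hη4
    have h2 : 28 * Jn ^ 2 * (S : ℝ) ^ 2 / s ^ 2 ≤ 28 / s := by
      rw [div_le_div_iff₀ (by positivity) s0]
      have : 28 * Jn ^ 2 * (S : ℝ) ^ 2 * s = 28 * (Jn ^ 2 * (S : ℝ) ^ 2) * s := by ring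
      rw [this]
      nlinarith
    refine lt_of_le_of_lt h2 ?_
    rw [div_lt_iff₀ s0]
    have : 28 / ρ < s := by linarith
    rw [div_lt_iff₀ hρ] at this
    linarith
  · have h1 : s ^ 6 ≤ 14.8 * s * N := by
      refine hN2.trans ?_
      gcongr
    have h2 : s ^ 5 ≤ 14.8 * N := by
      have : s * s ^ 5 ≤ s * (14.8 * N) := by
        calc s * s ^ 5 = s ^ 6 := by ring
          _ ≤ 14.8 * s * N := h1
          _ = s * (14.8 * N) := by ring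
      exact le_of_mul_le_mul_left this s0
    have h3 : s ≤ s ^ 5 := by
      calc s = s ^ 1 := by ring
        _ ≤ s ^ 5 := pow_le_pow_right₀ s1 (by norm_num)
    linarith
  · have hNQ : (Q0 : ℝ) + 2 ≤ N := by
      have h1 : s ^ 6 ≤ 14.8 * s * N := by
        refine hN2.trans ?_
        gcongr
      have h2 : s ^ 5 ≤ 14.8 * N := by
        have : s * s ^ 5 ≤ s * (14.8 * N) := by
          calc s * s ^ 5 = s ^ 6 := by ring
            _ ≤ 14.8 * s * N := h1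
            _ = s * (14.8 * N) := by ring
        exact le_of_mul_le_mul_left this s0
      have h3 : s ≤ s ^ 5 := by
        calc s = s ^ 1 := by ring
          _ ≤ s ^ 5 := pow_le_pow_right₀ s1 (by norm_num)
      linarith
    have hQpos : 0 < N - 1 := by
      have : (0 : ℝ) ≤ Q0 := by positivity
      linarith
    have e1 : (2 * s ^ 6 * S) ^ (-(1 / 2 : ℝ) + η) ≤ (N - 1) ^ (-(1 / 2 : ℝ) + η) :=
      Real.rpow_le_rpow_of_nonpos hQpos (by linarith) (by linarith)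
    refine le_trans ?_ e1
    have e2 : (2 * s ^ 6 * S) ^ (-(1 / 2 : ℝ) + η) = ((2 * s ^ 6 * S) ^ (1 / 2 - η))⁻¹ := by
      rw [← Real.rpow_neg (by positivity)]; congr 1; ring
    rw [e2, ← one_div, div_le_div_iff₀ (by positivity) (by positivity), one_mul]
    have e3 : (2 * s ^ 6 * S) ^ (1 / 2 - η) ≤ 2 * S * s ^ (3 - 6 * η) := by
      have : 2 * s ^ 6 * (S : ℝ) = (2 * S) * s ^ 6 := by ring
      rw [this, Real.mul_rpow (by positivity) (by positivity)]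
      have e4 : (s ^ 6) ^ (1 / 2 - η) = s ^ (3 - 6 * η) := by
        rw [← Real.rpow_natCast, ← Real.rpow_mul s0.le]
        congr 1
        push_cast
        ring
      rw [e4]
      have e5 : (2 * (S : ℝ)) ^ (1 / 2 - η) ≤ 2 * S := by
        calc (2 * (S : ℝ)) ^ (1 / 2 - η) ≤ (2 * (S : ℝ)) ^ (1 : ℝ) :=
              Real.rpow_le_rpow_of_exponent_le (by linarith) (by linarith)
          _ = 2 * S := Real.rpow_one _
      gcongr
    have e6 : s ^ 3 = s ^ (3 - 6 * η) * (s ^ η) ^ 3 * s ^ (3 * η) := by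
      have : (s ^ η) ^ 3 = s ^ (η * 3) := by
        rw [Real.rpow_mul s0.le]
        norm_cast
      rw [this, ← Real.rpow_add s0, ← Real.rpow_add s0]
      have : 3 - 6 * η + η * 3 + 3 * η = ((3 : ℕ) : ℝ) := by push_cast; ring
      rw [this, Real.rpow_natCast]
    have e7 : 4 ≤ s ^ (3 * η) := by
      calc (4 : ℝ) = A5 ^ (3 * η) := by
            rw [hA5, ← Real.rpow_mul (by norm_num)]
            rw [one_div_mul_cancel (by positivity), Real.rpow_one]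
        _ ≤ s ^ (3 * η) := Real.rpow_le_rpow (by positivity) sA5 (by positivity)
    have hp : 0 < s ^ (3 - 6 * η) := by positivity
    calc 2 * (S : ℝ) ^ 2 * (2 * s ^ 6 * S) ^ (1 / 2 - η)
        ≤ 2 * (S : ℝ) ^ 2 * (2 * S * s ^ (3 - 6 * η)) := by gcongr
      _ = s ^ (3 - 6 * η) * (S : ℝ) ^ 3 * 4 := by ring
      _ ≤ s ^ (3 - 6 * η) * (s ^ η) ^ 3 * s ^ (3 * η) := by gcongr
      _ = s ^ 3 := e6.symm

end Pool.A6405.HX
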