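import Pool.Agent.H.MP_a6405b_nt.helper62.Dens

/-!
MP_a6405b_nt (helper62), module Good: near every triple there is a good triple.
-/

set_option autoImplicit false

namespace Pool.A6405.HX

/-- coefficients of `z ↦ dt z w v` -/
lemma dt_eq (z w v : Fin 3 → ℤ) : dt z w v = (w 1 * v 2 - w 2 * v 1) * z 0 +
    (-(w 0 * v 2 - w 2 * v 0)) * z 1 + (w 0 * v 1 - w 1 * v 0) * z 2 := by
  unfold dt; ring

theorem dense_step (η : ℝ) (hη : 0 < η) (hη' : η ≤ 1 / 4) (ξs : Fin 3 → ℝ) (ρ : ℝ) (hρ : 0 < ρ)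
    (Q0 : ℕ) : ∃ ξ : Fin 3 → ℝ, (∀ j, |ξ j - ξs j| < ρ) ∧ ∃ Q : ℕ, Q0 ≤ Q ∧ 1 ≤ Q ∧
      ∀ q : ℕ, 1 ≤ q → q ≤ Q → ∀ M : ℝ,
        (∀ j, |(q : ℝ) * ξ j - round ((q : ℝ) * ξ j)| ≤ M) →
        1 ≤ 800 * (Q : ℝ) * ∏ i, max |(q : ℝ) * ξ i - round ((q : ℝ) * ξ i)|
          ((Q : ℝ) ^ (-(1 / 2 : ℝ) + η) * M) := by
  obtain ⟨s0, hs01, hs0⟩ := asymp η hη hη' ρ hρ Q0
  obtain ⟨X, hXs, hX1, u1, u2, u3, v, hB⟩ := exists_BU (s0 ^ 2)
  set s := Real.sqrt X with hs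
  have hX0 : 0 ≤ X := by linarith
  have hsX : s ^ 2 = X := Real.sq_sqrt hX0
  have hss : s0 ≤ s := by
    rw [hs]; exact Real.le_sqrt_of_sq_le hXs
  have s1 : 1 ≤ s := hs01.trans hss
  have s0p : 0 < s := by linarith
  -- n1
  set n1 := mul v u1 with hn1
  have hn1' : |nrm n1| = 1 := by rw [hn1, nrm_mul, abs_mul, hB.nv, hB.n1]; norm_num
  have hu1 : mul u2 n1 = u1 := by
    apply ev_inj
    intro i
    rw [hn1, ev_mul, ev_mul, ← mul_assoc, hB.inv i, one_mul]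
  have hevn1 : ∀ i, |ev n1 i| ≤ 4 * s ^ 4 := by
    intro i
    rw [hn1, ev_mul, abs_mul]
    have a : |ev v i| ≤ 2 * s := by
      have h1 : |ev v i| ^ 2 ≤ (2 * s) ^ 2 := by
        rw [mul_pow, hsX]; linarith [hB.vb i]
      exact (abs_le_of_sq_le_sq' h1 (by positivity)).2
    have h2s : 2 / s ≤ 2 * s ^ 2 := by
      rw [div_le_iff₀ s0p]
      have : 1 ≤ s ^ 2 * s := by
        have := one_le_pow₀ s1 (n := 3)
        calc 1 ≤ s ^ 3 := this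
          _ = s ^ 2 * s := by ring
      linarith
    have b : |ev u1 i| ≤ 2 * s ^ 2 := by
      fin_cases i
      · show |ev u1 0| ≤ 2 * s ^ 2
        rw [hB.d1, hsX]; linarith
      · exact (off_le s0p hsX hB.o11).trans h2s
      · exact (off_le s0p hsX hB.o12).trans h2s
    calc |ev v i| * |ev u1 i| ≤ (2 * s) * (2 * s ^ 2) :=
          mul_le_mul a b (abs_nonneg _) (by positivity)
      _ = 4 * s ^ 3 := by ring
      _ ≤ 4 * s ^ 4 := by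
          have := pow_le_pow_right₀ s1 (show 3 ≤ 4 by norm_num)
          linarith
  obtain ⟨n2, z, S, hS1, hSK, hSn, hn20, hdt⟩ := exists_n2 n1 hn1'
  have hA : ((n1 0).natAbs : ℝ) ≤ 200 * s ^ 4 := by
    have h1 := coord0_le n1 (4 * s ^ 4) hevn1
    rw [Nat.cast_natAbs, Int.cast_abs]
    have : 0 < s ^ 4 := by positivity
    linarith
  have hSK' : ∀ K : ℕ, (S : ℝ) ^ K ≤ cK K * (200 * s ^ 4 + 1) := by
    intro K
    have h1 : ((S ^ K : ℕ) : ℝ) ≤ ((cK K * ((n1 0).natAbs + 1) : ℕ) : ℝ) := by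
      exact_mod_cast hSK K
    push_cast at h1
    refine h1.trans ?_
    have : (0 : ℝ) ≤ cK K := by positivity
    refine mul_le_mul_of_nonneg_left ?_ this
    linarith
  obtain ⟨h8, hrest⟩ := hs0 s hss S hS1 hSK'
  obtain ⟨hdiag, hS2⟩ := diag_of_BU hB s1 hsX hS1 hSn hn20 h8
  set ν : Fin 3 → Fin 3 → ℤ := ![u1, mul u2 n2, u3] with hν
  set T : Fin 3 → ℝ := ![X, X * |ev n2 1|, X] with hT
  have ν0 : ν 0 = u1 := rfl
  have ν1 : ν 1 = mul u2 n2 := rfl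
  have ν2 : ν 2 = u3 := rfl
  have T0 : T 0 = X := rfl
  have T1 : T 1 = X * |ev n2 1| := rfl
  have T2 : T 2 = X := rfl
  set D := dt (ν 2) (ν 0) (ν 1) with hD
  have hcyc : D = dt (ν 0) (ν 1) (ν 2) := by
    rw [hD]; unfold dt; ring
  have hNabs : ((D.natAbs : ℕ) : ℝ) = |(dt (ν 0) (ν 1) (ν 2) : ℝ)| := by
    rw [hcyc, Nat.cast_natAbs, Int.cast_abs]
  have hprodT : T 0 * T 1 * T 2 = X ^ 3 * |ev n2 1| := by rw [T0, T1, T2]; ring
  have hX3 : X ^ 3 = s ^ 6 := by rw [← hsX]; ring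
  have hn2S : |ev n2 1| ≤ S := hSn 1
  -- bounds for D
  have hN1 : ((D.natAbs : ℕ) : ℝ) ≤ 2 * s ^ 6 * S := by
    rw [hNabs]
    refine hdiag.le_prod.trans ?_
    rw [hprodT, hX3]
    have : 0 ≤ s ^ 6 := by positivity
    nlinarith
  have hN2 : s ^ 6 ≤ 14.8 * (S : ℝ) ^ 2 * ((D.natAbs : ℕ) : ℝ) := by
    rw [hNabs]
    have h1 := hdiag.prod_le
    rw [hprodT, hX3] at h1
    have h6 : 0 ≤ s ^ 6 := by positivity
    calc s ^ 6 = s ^ 6 * 1 := by ring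
      _ ≤ s ^ 6 * ((S : ℝ) ^ 2 * |ev n2 1|) := mul_le_mul_of_nonneg_left hS2 h6
      _ = (S : ℝ) ^ 2 * (s ^ 6 * |ev n2 1|) := by ring
      _ ≤ (S : ℝ) ^ 2 * (14.8 * |(dt (ν 0) (ν 1) (ν 2) : ℝ)|) :=
          mul_le_mul_of_nonneg_left h1 (by positivity)
      _ = _ := by ring
  have hD0 : D ≠ 0 := by
    intro h0
    rw [h0] at hN2
    simp at hN2
    have : 0 < s ^ 6 := by positivity
    linarith
  have hJK : ∀ K : ℕ, ((J D : ℕ) : ℝ) ^ K ≤ cK K * ((D.natAbs : ℕ) : ℝ) := by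
    intro K
    have h1 := J_pow_le K D hD0
    have h2 : (J D) ^ K ≤ cK K * D.natAbs := by
      refine h1.trans ?_
      unfold cK
      refine Nat.mul_le_mul_right _ ?_
      exact Nat.le_mul_of_pos_left _ (by positivity)
    exact_mod_cast h2
  obtain ⟨hdist, hNQ, hfin⟩ := hrest (J D) (D.natAbs) (by positivity) hJK hN1 hN2
  -- numerator
  have hprim : ∀ p : ℕ, p.Prime → (p : ℤ) ∣ (ν 0 1 * ν 1 2 - ν 0 2 * ν 1 1) →
      (p : ℤ) ∣ -(ν 0 0 * ν 1 2 - ν 0 2 * ν 1 0) →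
      (p : ℤ) ∣ (ν 0 0 * ν 1 1 - ν 0 1 * ν 1 0) → False := by
    intro p hp h1 h2 h3
    have h4 : (p : ℤ) ∣ dt (mul u2 z) (ν 0) (ν 1) := by
      rw [dt_eq]
      exact dvd_add (dvd_add (Dvd.dvd.mul_right h1 _) (Dvd.dvd.mul_right h2 _))
        (Dvd.dvd.mul_right h3 _)
    have h5 : dt (mul u2 z) (ν 0) (ν 1) = nrm u2 := by
      have : dt (mul u2 z) (ν 0) (ν 1) = dt (mul u2 z) (mul u2 n1) (mul u2 n2) := by
        rw [hu1, ν0, ν1]
      rw [this, dt_mul, hdt, mul_one]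
    rw [h5] at h4
    have h6 : (p : ℤ) ∣ 1 := by
      rw [← hB.n2]; exact (dvd_abs _ _).mpr h4
    have h7 : p ∣ 1 := by exact_mod_cast h6
    exact hp.one_lt.ne' (Nat.dvd_one.mp h7)
  set w : Fin 3 → ℝ := fun k => ξs 0 * ν 0 k + ξs 1 * ν 1 k + ξs 2 * ν 2 k with hw
  obtain ⟨θ, hθ1, hθ2⟩ := exists_theta _ _ _ D hD0 hprim (fun k => round (w k))
  rw [← dt_eq] at hθ2
  obtain ⟨ξ, hξ⟩ := cramer (ν := ν) θ (by rw [← hcyc]; exact hD0)
  refine ⟨ξ, ?_, D.natAbs - 1, ?_, ?_, ?_⟩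
  · -- distance
    have hJ1 : (1 : ℝ) ≤ (J D : ℕ) := by exact_mod_cast one_le_J D
    have hJ2 : (1 : ℝ) ≤ ((J D : ℕ) : ℝ) ^ 2 := one_le_pow₀ hJ1
    have hθw : ∀ k, |(θ k : ℝ) - w k| ≤ 2 * ((J D : ℕ) : ℝ) ^ 2 := by
      intro k
      have h1 := hθ1 k
      have h2 : |w k - round (w k)| ≤ 1 / 2 := abs_sub_round (w k)
      rw [abs_sub_comm] at h2
      calc |(θ k : ℝ) - w k| ≤ |(θ k : ℝ) - round (w k)| + |(round (w k) : ℝ) - w k| :=
            abs_sub_le _ _ _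
        _ ≤ _ := by linarith
    set x : Fin 3 → ℝ := fun j => ξ j - ξs j with hx
    obtain ⟨i, hi⟩ : ∃ i, ∀ j, |x j| ≤ |x i| :=
      ⟨_, fun j => (Finite.exists_max (fun j => |x j|)).choose_spec j⟩
    have h1 := hdiag.le_comb x i hi
    have h2 : (((θ 0 : ℝ) - w 0) + ((θ 1 : ℝ) - w 1) * r i + ((θ 2 : ℝ) - w 2) * r i ^ 2) =
        x 0 * ev (ν 0) i + x 1 * ev (ν 1) i + x 2 * ev (ν 2) i := by
      refine ev_comb x (fun k => (θ k : ℝ) - w k) ?_ i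
      intro k
      simp only [hx, hw]
      rw [hξ k]
      ring
    rw [← h2] at h1
    have h3 : |((θ 0 : ℝ) - w 0) + ((θ 1 : ℝ) - w 1) * r i + ((θ 2 : ℝ) - w 2) * r i ^ 2| ≤
        14 * ((J D : ℕ) : ℝ) ^ 2 := by
      have hr := abs_r_le i
      have hr2 : |r i ^ 2| ≤ 4 := by
        rw [abs_pow]; nlinarith [abs_nonneg (r i)]
      have a0 := hθw 0
      have a1 : |((θ 1 : ℝ) - w 1) * r i| ≤ 2 * ((J D : ℕ) : ℝ) ^ 2 * 2 := by
        rw [abs_mul]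
        exact mul_le_mul (hθw 1) hr (abs_nonneg _) (by positivity)
      have a2 : |((θ 2 : ℝ) - w 2) * r i ^ 2| ≤ 2 * ((J D : ℕ) : ℝ) ^ 2 * 4 := by
        rw [abs_mul]
        exact mul_le_mul (hθw 2) hr2 (abs_nonneg _) (by positivity)
      refine (abs_add_three _ _ _).trans ?_
      linarith
    have h4 : s ^ 2 ≤ (S : ℝ) ^ 2 * T i := by
      have hSS : (1 : ℝ) ≤ (S : ℝ) ^ 2 := by
        have : (1 : ℝ) ≤ S := by exact_mod_cast hS1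
        exact one_le_pow₀ this
      have hXp : 0 < X := by linarith
      fin_cases i
      · show s ^ 2 ≤ (S : ℝ) ^ 2 * X
        rw [hsX]; nlinarith
      · show s ^ 2 ≤ (S : ℝ) ^ 2 * (X * |ev n2 1|)
        rw [hsX]; nlinarith
      · show s ^ 2 ≤ (S : ℝ) ^ 2 * X
        rw [hsX]; nlinarith
    have h5 : s ^ 2 * |x i| ≤ 28 * ((J D : ℕ) : ℝ) ^ 2 * (S : ℝ) ^ 2 := by
      calc s ^ 2 * |x i| ≤ ((S : ℝ) ^ 2 * T i) * |x i| :=
            mul_le_mul_of_nonneg_right h4 (abs_nonneg _)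
        _ = (S : ℝ) ^ 2 * (T i * |x i|) := by ring
        _ ≤ (S : ℝ) ^ 2 * (2 * (14 * ((J D : ℕ) : ℝ) ^ 2)) := by
            refine mul_le_mul_of_nonneg_left ?_ (by positivity)
            linarith
        _ = _ := by ring
    have h6 : |x i| ≤ 28 * ((J D : ℕ) : ℝ) ^ 2 * (S : ℝ) ^ 2 / s ^ 2 := by
      rw [le_div_iff₀ (by positivity)]
      linarith
    intro j
    exact lt_of_le_of_lt ((hi j).trans h6) hdist
  · have : (Q0 : ℝ) + 2 ≤ (D.natAbs : ℕ) := hNQ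
    have h2 : Q0 + 2 ≤ D.natAbs := by exact_mod_cast this
    omega
  · have : (Q0 : ℝ) + 2 ≤ (D.natAbs : ℕ) := hNQ
    have h2 : Q0 + 2 ≤ D.natAbs := by exact_mod_cast this
    omega
  · intro q hq1 hqQ M hM
    have hN : Q0 + 2 ≤ D.natAbs := by exact_mod_cast hNQ
    have hqN : q < D.natAbs := by omega
    have hmain := hdiag.main θ ξ hξ hθ2 q hq1 hqN M hM
    have hM0 : 0 ≤ M := (abs_nonneg _).trans (hM 0)
    have hQc : ((D.natAbs - 1 : ℕ) : ℝ) = (D.natAbs : ℕ) - 1 := by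
      rw [Nat.cast_sub (by omega)]; norm_num
    rw [hQc]
    have hle : ∏ i, max |(q : ℝ) * ξ i - round ((q : ℝ) * ξ i)| (2 * (S : ℝ) ^ 2 / s ^ 3 * M) ≤
        ∏ i, max |(q : ℝ) * ξ i - round ((q : ℝ) * ξ i)|
          (((D.natAbs : ℕ) - 1 : ℝ) ^ (-(1 / 2 : ℝ) + η) * M) := by
      refine Finset.prod_le_prod (fun i _ => (abs_nonneg _).trans (le_max_left _ _)) ?_
      intro i _
      exact max_le_max le_rfl (mul_le_mul_of_nonneg_right hfin hM0)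
    have hge : 0 ≤ ∏ i, max |(q : ℝ) * ξ i - round ((q : ℝ) * ξ i)|
        (2 * (S : ℝ) ^ 2 / s ^ 3 * M) :=
      Finset.prod_nonneg fun i _ => (abs_nonneg _).trans (le_max_left _ _)
    have h2 : (2 : ℝ) ≤ (D.natAbs : ℕ) := by
      have : 2 ≤ D.natAbs := by omega
      exact_mod_cast this
    calc (1 : ℝ) ≤ 400 * ((D.natAbs : ℕ) : ℝ) * ∏ i, max |(q : ℝ) * ξ i - round ((q : ℝ) * ξ i)|
          (2 * (S : ℝ) ^ 2 / s ^ 3 * M) := hmain
      _ ≤ 800 * ((D.natAbs : ℕ) - 1 : ℝ) * ∏ i, max |(q : ℝ) * ξ i - round ((q : ℝ) * ξ i)|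
          (2 * (S : ℝ) ^ 2 / s ^ 3 * M) := by
          refine mul_le_mul_of_nonneg_right ?_ hge
          linarith
      _ ≤ _ := by
          refine mul_le_mul_of_nonneg_left hle ?_
          linarith

end Pool.A6405.HX
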