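import Pool.Agent.H.MP_a6405b_nt.helper62.Prim

/-!
MP_a6405b_nt (helper62), module Ineq: the norm inequality for one basis and one numerator.
-/

set_option autoImplicit false

namespace Pool.A6405.HX

/-- `ν` is an almost diagonal basis with diagonal `T` -/
structure Diag (ν : Fin 3 → Fin 3 → ℤ) (T : Fin 3 → ℝ) (δ : ℝ) : Prop where
  pos : ∀ i, 0 < T i
  diag : ∀ i, |ev (ν i) i| = T i
  off : ∀ i j, i ≠ j → |ev (ν j) i| ≤ δ * T i
  hδ : 0 ≤ δ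
  hδ' : δ ≤ 1 / 4

lemma abs_mul3_le {x y z a b c : ℝ} (hx : |x| ≤ a) (hy : |y| ≤ b) (hz : |z| ≤ c) :
    |x * y * z| ≤ a * b * c := by
  rw [abs_mul, abs_mul]
  have ha : 0 ≤ a := (abs_nonneg _).trans hx
  have hb : 0 ≤ b := (abs_nonneg _).trans hy
  exact mul_le_mul (mul_le_mul hx hy (abs_nonneg _) ha) hz (abs_nonneg _) (mul_nonneg ha hb)

section
variable {ν : Fin 3 → Fin 3 → ℤ} {T : Fin 3 → ℝ} {δ : ℝ}

/-- the determinant is close to the product of the diagonal -/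
lemma Diag.close (h : Diag ν T δ) :
    |vdm * dt (ν 0) (ν 1) (ν 2) - ev (ν 0) 0 * ev (ν 1) 1 * ev (ν 2) 2| ≤
      1 / 2 * (T 0 * T 1 * T 2) := by
  have hT0 := h.pos 0
  have hT1 := h.pos 1
  have hT2 := h.pos 2
  have key : vdm * dt (ν 0) (ν 1) (ν 2) - ev (ν 0) 0 * ev (ν 1) 1 * ev (ν 2) 2 =
      -(ev (ν 0) 0 * ev (ν 2) 1 * ev (ν 1) 2) - ev (ν 1) 0 * ev (ν 0) 1 * ev (ν 2) 2 +
      ev (ν 2) 0 * ev (ν 0) 1 * ev (ν 1) 2 + ev (ν 1) 0 * ev (ν 2) 1 * ev (ν 0) 2 -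
      ev (ν 2) 0 * ev (ν 1) 1 * ev (ν 0) 2 := by
    rw [← ev_dt]; ring
  have t1 := abs_mul3_le (h.diag 0).le (h.off 1 2 (by decide)) (h.off 2 1 (by decide))
  have t2 := abs_mul3_le (h.off 0 1 (by decide)) (h.off 1 0 (by decide)) (h.diag 2).le
  have t3 := abs_mul3_le (h.off 0 2 (by decide)) (h.off 1 0 (by decide)) (h.off 2 1 (by decide))
  have t4 := abs_mul3_le (h.off 0 1 (by decide)) (h.off 1 2 (by decide)) (h.off 2 0 (by decide))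
  have t5 := abs_mul3_le (h.off 0 2 (by decide)) (h.diag 1).le (h.off 2 0 (by decide))
  rw [key]
  have hP : 0 < T 0 * T 1 * T 2 := by positivity
  have hd := h.hδ
  have hd' := h.hδ'
  have d2 : δ ^ 2 ≤ 1 / 16 := by nlinarith
  have d3 : δ ^ 3 ≤ 1 / 64 := by
    have : δ ^ 3 = δ ^ 2 * δ := by ring
    rw [this]; nlinarith [sq_nonneg δ]
  have s : |-(ev (ν 0) 0 * ev (ν 2) 1 * ev (ν 1) 2) - ev (ν 1) 0 * ev (ν 0) 1 * ev (ν 2) 2 +
      ev (ν 2) 0 * ev (ν 0) 1 * ev (ν 1) 2 + ev (ν 1) 0 * ev (ν 2) 1 * ev (ν 0) 2 -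
      ev (ν 2) 0 * ev (ν 1) 1 * ev (ν 0) 2| ≤ (3 * δ ^ 2 + 2 * δ ^ 3) * (T 0 * T 1 * T 2) := by
    rw [abs_le] at t1 t2 t3 t4 t5 ⊢
    constructor <;> nlinarith
  refine s.trans ?_
  exact mul_le_mul_of_nonneg_right (by linarith) hP.le

lemma Diag.abs_prod (h : Diag ν T δ) : |ev (ν 0) 0 * ev (ν 1) 1 * ev (ν 2) 2| =
    T 0 * T 1 * T 2 := by
  rw [abs_mul, abs_mul, h.diag 0, h.diag 1, h.diag 2]

lemma Diag.prod_le (h : Diag ν T δ) :
    T 0 * T 1 * T 2 ≤ 14.8 * |(dt (ν 0) (ν 1) (ν 2) : ℝ)| := by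
  have h1 := h.close
  have h2 := h.abs_prod
  have h3 : |ev (ν 0) 0 * ev (ν 1) 1 * ev (ν 2) 2| ≤
      |vdm * dt (ν 0) (ν 1) (ν 2) - ev (ν 0) 0 * ev (ν 1) 1 * ev (ν 2) 2| +
      |vdm * dt (ν 0) (ν 1) (ν 2)| := by
    have := abs_sub (vdm * dt (ν 0) (ν 1) (ν 2))
      (vdm * dt (ν 0) (ν 1) (ν 2) - ev (ν 0) 0 * ev (ν 1) 1 * ev (ν 2) 2)
    rw [sub_sub_cancel] at this
    linarith
  rw [h2, abs_mul vdm] at h3
  have h4 : |vdm| * |(dt (ν 0) (ν 1) (ν 2) : ℝ)| ≤ 7.4 * |(dt (ν 0) (ν 1) (ν 2) : ℝ)| :=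
    mul_le_mul_of_nonneg_right vdm_hi (abs_nonneg _)
  linarith

lemma Diag.le_prod (h : Diag ν T δ) :
    |(dt (ν 0) (ν 1) (ν 2) : ℝ)| ≤ 2 * (T 0 * T 1 * T 2) := by
  have hP : 0 < T 0 * T 1 * T 2 := mul_pos (mul_pos (h.pos 0) (h.pos 1)) (h.pos 2)
  have h1 := h.close
  have h2 := h.abs_prod
  have h3 : |vdm * dt (ν 0) (ν 1) (ν 2)| ≤
      |vdm * dt (ν 0) (ν 1) (ν 2) - ev (ν 0) 0 * ev (ν 1) 1 * ev (ν 2) 2| +
      |ev (ν 0) 0 * ev (ν 1) 1 * ev (ν 2) 2| := by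
    have := abs_add_le (vdm * dt (ν 0) (ν 1) (ν 2) - ev (ν 0) 0 * ev (ν 1) 1 * ev (ν 2) 2)
      (ev (ν 0) 0 * ev (ν 1) 1 * ev (ν 2) 2)
    rw [sub_add_cancel] at this
    exact this
  rw [h2, abs_mul vdm] at h3
  have h4 : |(dt (ν 0) (ν 1) (ν 2) : ℝ)| ≤ |vdm| * |(dt (ν 0) (ν 1) (ν 2) : ℝ)| := by
    have := mul_le_mul_of_nonneg_right vdm_lo (abs_nonneg (dt (ν 0) (ν 1) (ν 2) : ℝ))
    linarith
  linarith

/-- real combination of the basis -/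
lemma ev_comb (x : Fin 3 → ℝ) (z : Fin 3 → ℝ)
    (hz : ∀ k, z k = x 0 * ν 0 k + x 1 * ν 1 k + x 2 * ν 2 k) (i : Fin 3) :
    z 0 + z 1 * r i + z 2 * r i ^ 2 = x 0 * ev (ν 0) i + x 1 * ev (ν 1) i + x 2 * ev (ν 2) i := by
  unfold ev
  rw [hz 0, hz 1, hz 2]
  ring

/-- upper bound for a combination -/
lemma Diag.comb_le (h : Diag ν T δ) (x : Fin 3 → ℝ) (M : ℝ) (hM : ∀ j, |x j| ≤ M) (i : Fin 3) :
    |x 0 * ev (ν 0) i + x 1 * ev (ν 1) i + x 2 * ev (ν 2) i| ≤ T i * (|x i| + 2 * δ * M) := by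
  have hM0 : 0 ≤ M := (abs_nonneg _).trans (hM 0)
  have hTi := h.pos i
  have term : ∀ j, i ≠ j → |x j * ev (ν j) i| ≤ T i * (δ * M) := by
    intro j hj
    rw [abs_mul]
    calc |x j| * |ev (ν j) i| ≤ M * (δ * T i) :=
          mul_le_mul (hM j) (h.off i j hj) (abs_nonneg _) hM0
      _ = T i * (δ * M) := by ring
  have dterm : |x i * ev (ν i) i| = T i * |x i| := by
    rw [abs_mul, h.diag i]; ring
  fin_cases i
  · have a := term 1 (by decide)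
    have b := term 2 (by decide)
    have c := dterm
    simp only [Fin.zero_eta, Fin.isValue] at a b c ⊢
    calc _ ≤ |x 0 * ev (ν 0) 0| + |x 1 * ev (ν 1) 0| + |x 2 * ev (ν 2) 0| := abs_add_three _ _ _
      _ ≤ _ := by rw [c]; linarith
  · have a := term 0 (by decide)
    have b := term 2 (by decide)
    have c := dterm
    simp only [Fin.mk_one, Fin.isValue] at a b c ⊢
    calc _ ≤ |x 0 * ev (ν 0) 1| + |x 1 * ev (ν 1) 1| + |x 2 * ev (ν 2) 1| := abs_add_three _ _ _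
      _ ≤ _ := by rw [c]; linarith
  · have a := term 0 (by decide)
    have b := term 1 (by decide)
    have c := dterm
    simp only [Fin.reduceFinMk, Fin.isValue] at a b c ⊢
    calc _ ≤ |x 0 * ev (ν 0) 2| + |x 1 * ev (ν 1) 2| + |x 2 * ev (ν 2) 2| := abs_add_three _ _ _
      _ ≤ _ := by rw [c]; linarith

/-- lower bound for a combination at the place of the largest coefficient -/
lemma Diag.le_comb (h : Diag ν T δ) (x : Fin 3 → ℝ) (i : Fin 3) (hi : ∀ j, |x j| ≤ |x i|) :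
    T i * |x i| ≤ 2 * |x 0 * ev (ν 0) i + x 1 * ev (ν 1) i + x 2 * ev (ν 2) i| := by
  have hTi := h.pos i
  have hd := h.hδ
  have hd' := h.hδ'
  have term : ∀ j, i ≠ j → |x j * ev (ν j) i| ≤ 1 / 4 * (T i * |x i|) := by
    intro j hj
    rw [abs_mul]
    calc |x j| * |ev (ν j) i| ≤ |x i| * (δ * T i) :=
          mul_le_mul (hi j) (h.off i j hj) (abs_nonneg _) (abs_nonneg _)
      _ ≤ |x i| * (1 / 4 * T i) := by gcongr
      _ = 1 / 4 * (T i * |x i|) := by ring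
  have dterm : |x i * ev (ν i) i| = T i * |x i| := by
    rw [abs_mul, h.diag i]; ring
  have tri : ∀ a b c : ℝ, |a| ≤ |a + b + c| + |b| + |c| := by
    intro a b c
    have h1 : |a| = |(a + b + c) + (-b) + (-c)| := by congr 1; ring
    rw [h1]
    have := abs_add_three (a + b + c) (-b) (-c)
    rwa [abs_neg, abs_neg] at this
  fin_cases i
  · have a := term 1 (by decide)
    have b := term 2 (by decide)
    have c := dterm
    simp only [Fin.zero_eta, Fin.isValue] at a b c ⊢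
    have := tri (x 0 * ev (ν 0) 0) (x 1 * ev (ν 1) 0) (x 2 * ev (ν 2) 0)
    linarith
  · have a := term 0 (by decide)
    have b := term 2 (by decide)
    have c := dterm
    simp only [Fin.mk_one, Fin.isValue] at a b c ⊢
    have := tri (x 1 * ev (ν 1) 1) (x 0 * ev (ν 0) 1) (x 2 * ev (ν 2) 1)
    have e : x 1 * ev (ν 1) 1 + x 0 * ev (ν 0) 1 + x 2 * ev (ν 2) 1 =
      x 0 * ev (ν 0) 1 + x 1 * ev (ν 1) 1 + x 2 * ev (ν 2) 1 := by ring
    rw [e] at this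
    linarith
  · have a := term 0 (by decide)
    have b := term 1 (by decide)
    have c := dterm
    simp only [Fin.reduceFinMk, Fin.isValue] at a b c ⊢
    have := tri (x 2 * ev (ν 2) 2) (x 0 * ev (ν 0) 2) (x 1 * ev (ν 1) 2)
    have e : x 2 * ev (ν 2) 2 + x 0 * ev (ν 0) 2 + x 1 * ev (ν 1) 2 =
      x 0 * ev (ν 0) 2 + x 1 * ev (ν 1) 2 + x 2 * ev (ν 2) 2 := by ring
    rw [e] at this
    linarith

/-- the main inequality -/
theorem Diag.main (h : Diag ν T δ) (θ : Fin 3 → ℤ) (ξ : Fin 3 → ℝ)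
    (hξ : ∀ k, (θ k : ℝ) = ξ 0 * ν 0 k + ξ 1 * ν 1 k + ξ 2 * ν 2 k)
    (hco : IsCoprime (dt θ (ν 0) (ν 1)) (dt (ν 2) (ν 0) (ν 1)))
    (q : ℕ) (hq : 1 ≤ q) (hqN : q < (dt (ν 2) (ν 0) (ν 1)).natAbs) (M : ℝ)
    (hM : ∀ j, |(q : ℝ) * ξ j - round ((q : ℝ) * ξ j)| ≤ M) :
    1 ≤ 400 * ((dt (ν 2) (ν 0) (ν 1)).natAbs : ℝ) *
      ∏ i, max |(q : ℝ) * ξ i - round ((q : ℝ) * ξ i)| (δ * M) := by
  have hM0 : 0 ≤ M := (abs_nonneg _).trans (hM 0)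
  have hd := h.hδ
  set p : Fin 3 → ℤ := fun j => round ((q : ℝ) * ξ j) with hp
  set x : Fin 3 → ℝ := fun j => (q : ℝ) * ξ j - round ((q : ℝ) * ξ j) with hx
  set α : Fin 3 → ℤ := fun k => q * θ k - (p 0 * ν 0 k + p 1 * ν 1 k + p 2 * ν 2 k) with hα
  have hαx : ∀ k, (α k : ℝ) = x 0 * ν 0 k + x 1 * ν 1 k + x 2 * ν 2 k := by
    intro k
    simp only [hα, hx, hp]
    push_cast
    rw [hξ k]
    ring
  have hα0 : α ≠ 0 := by
    intro h0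
    have hk : ∀ k, (q : ℤ) * θ k = p 0 * ν 0 k + p 1 * ν 1 k + p 2 * ν 2 k := by
      intro k
      have := congrFun h0 k
      simp only [hα, Pi.zero_apply] at this
      linarith
    have h1 : (q : ℤ) * dt θ (ν 0) (ν 1) = p 2 * dt (ν 2) (ν 0) (ν 1) := by
      have a := hk 0
      have b := hk 1
      have c := hk 2
      unfold dt
      linear_combination (ν 0 1 * ν 1 2 - ν 0 2 * ν 1 1) * a -
        (ν 0 0 * ν 1 2 - ν 0 2 * ν 1 0) * b + (ν 0 0 * ν 1 1 - ν 0 1 * ν 1 0) * c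
    have h2 : dt (ν 2) (ν 0) (ν 1) ∣ (q : ℤ) := by
      refine (hco.symm).dvd_of_dvd_mul_right ?_
      exact ⟨p 2, by rw [h1]; ring⟩
    have h3 : (dt (ν 2) (ν 0) (ν 1)).natAbs ∣ q := Int.natAbs_dvd_natAbs.mpr h2
    have := Nat.le_of_dvd hq h3
    omega
  have h1 := one_le_abs_ev α hα0
  have hcyc : dt (ν 2) (ν 0) (ν 1) = dt (ν 0) (ν 1) (ν 2) := by
    unfold dt; ring
  have bd : ∀ i, |ev α i| ≤ T i * (3 * max |x i| (δ * M)) := by
    intro i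
    have e : ev α i = x 0 * ev (ν 0) i + x 1 * ev (ν 1) i + x 2 * ev (ν 2) i :=
      ev_comb x (fun k => (α k : ℝ)) hαx i
    rw [e]
    refine (h.comb_le x M hM i).trans ?_
    refine mul_le_mul_of_nonneg_left ?_ (h.pos i).le
    have a := le_max_left |x i| (δ * M)
    have b := le_max_right |x i| (δ * M)
    linarith
  have hm : ∀ i, 0 ≤ max |x i| (δ * M) := fun i => (abs_nonneg _).trans (le_max_left _ _)
  have h2 : |ev α 0| * |ev α 1| * |ev α 2| ≤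
      (T 0 * (3 * max |x 0| (δ * M))) * (T 1 * (3 * max |x 1| (δ * M))) *
      (T 2 * (3 * max |x 2| (δ * M))) := by
    have p0 := h.pos 0
    have p1 := h.pos 1
    have m0 := hm 0
    have m1 := hm 1
    refine mul_le_mul (mul_le_mul (bd 0) (bd 1) (abs_nonneg _) ?_) (bd 2) (abs_nonneg _) ?_
    · positivity
    · positivity
  have h3 : (T 0 * (3 * max |x 0| (δ * M))) * (T 1 * (3 * max |x 1| (δ * M))) *
      (T 2 * (3 * max |x 2| (δ * M))) =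
      27 * (T 0 * T 1 * T 2) * ∏ i, max |x i| (δ * M) := by
    rw [Fin.prod_univ_three]; ring
  have h4 : 0 ≤ ∏ i, max |x i| (δ * M) := Finset.prod_nonneg fun i _ => hm i
  have h5 := h.prod_le
  have h6 : ((dt (ν 2) (ν 0) (ν 1)).natAbs : ℝ) = |(dt (ν 0) (ν 1) (ν 2) : ℝ)| := by
    rw [hcyc, Nat.cast_natAbs, Int.cast_abs]
  rw [h6]
  have h7 : 27 * (T 0 * T 1 * T 2) ≤ 400 * |(dt (ν 0) (ν 1) (ν 2) : ℝ)| := by
    have := abs_nonneg (dt (ν 0) (ν 1) (ν 2) : ℝ)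
    linarith
  calc (1 : ℝ) ≤ 27 * (T 0 * T 1 * T 2) * ∏ i, max |x i| (δ * M) := by
        rw [← h3]; exact h1.trans h2
    _ ≤ _ := mul_le_mul_of_nonneg_right h7 h4

/-- Cramer's rule -/
lemma cramer (θ : Fin 3 → ℤ) (hD : dt (ν 0) (ν 1) (ν 2) ≠ 0) :
    ∃ ξ : Fin 3 → ℝ, ∀ k, (θ k : ℝ) = ξ 0 * ν 0 k + ξ 1 * ν 1 k + ξ 2 * ν 2 k := by
  have hD' : (dt (ν 0) (ν 1) (ν 2) : ℝ) ≠ 0 := by exact_mod_cast hD
  refine ⟨![dt θ (ν 1) (ν 2) / dt (ν 0) (ν 1) (ν 2), dt (ν 0) θ (ν 2) / dt (ν 0) (ν 1) (ν 2),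
    dt (ν 0) (ν 1) θ / dt (ν 0) (ν 1) (ν 2)], ?_⟩
  intro k
  simp only [Matrix.cons_val_zero, Matrix.cons_val_one, Matrix.cons_val]
  rw [div_mul_eq_mul_div, div_mul_eq_mul_div, div_mul_eq_mul_div, ← add_div, ← add_div,
    eq_div_iff hD']
  have hZ : θ k * dt (ν 0) (ν 1) (ν 2) = dt θ (ν 1) (ν 2) * ν 0 k + dt (ν 0) θ (ν 2) * ν 1 k +
      dt (ν 0) (ν 1) θ * ν 2 k := by
    unfold dt
    fin_cases k
    · simp only [Fin.zero_eta, Fin.isValue]; ring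
    · simp only [Fin.mk_one, Fin.isValue]; ring
    · simp only [Fin.reduceFinMk, Fin.isValue]; ring
  exact_mod_cast hZ

end

end Pool.A6405.HX
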