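import Mathlib

/-!
MP_a6405b_nt (helper62), module Jac: for `D ≠ 0` and `gcd (a, b, D) = 1` there is
`k ≤ 8 ^ ω(D)` with `gcd (a + k b, D) = 1`, and `8 ^ ω(D)` is smaller than any power of `D`.
-/

set_option autoImplicit false

namespace Pool.A6405.HX

open Finset

/-- the bound `8 ^ ω(D)` -/
noncomputable def J (D : ℤ) : ℕ := 8 ^ D.natAbs.primeFactors.card

lemma one_le_J (D : ℤ) : 1 ≤ J D := Nat.one_le_pow _ _ (by norm_num)

/-- the numbers `t ≤ s` with `p ∣ u + t v` are at most one if `s < p` and `p ∤ v` -/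
lemma card_bad (p : ℕ) (hp : p.Prime) (s : ℕ) (hs : s < p) (u v : ℤ) (hv : ¬ (p : ℤ) ∣ v) :
    ((range (s + 1)).filter fun t : ℕ => (p : ℤ) ∣ u + t * v).card ≤ 1 := by
  classical
  refine card_le_one.mpr ?_
  intro t ht t' ht'
  simp only [mem_filter, mem_range] at ht ht'
  by_contra hne
  have h1 : (p : ℤ) ∣ ((t : ℤ) - t') * v := by
    have := dvd_sub ht.2 ht'.2
    have e : u + (t : ℤ) * v - (u + (t' : ℤ) * v) = ((t : ℤ) - t') * v := by ring
    rwa [e] at this
  have hpi : Prime (p : ℤ) := Nat.prime_iff_prime_int.mp hp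
  rcases hpi.dvd_or_dvd h1 with h2 | h2
  · have h3 : ((t : ℤ) - t') = 0 := by
      refine Int.eq_zero_of_abs_lt_dvd h2 ?_
      rw [abs_lt]
      constructor
      · have : (t' : ℤ) < p := by exact_mod_cast lt_of_lt_of_le ht'.1 (by omega)
        have : (0 : ℤ) ≤ t := by positivity
        linarith
      · have : (t : ℤ) < p := by exact_mod_cast lt_of_lt_of_le ht.1 (by omega)
        have : (0 : ℤ) ≤ t' := by positivity
        linarith
    apply hne
    have : (t : ℤ) = t' := by linarith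
    exact_mod_cast this
  · exact hv h2

/-- main lemma -/
lemma exists_coprime_shift (a b D : ℤ) (hD : D ≠ 0)
    (h : ∀ p : ℕ, p.Prime → (p : ℤ) ∣ a → (p : ℤ) ∣ b → (p : ℤ) ∣ D → False) :
    ∃ k : ℕ, k ≤ J D ∧ IsCoprime (a + k * b) D := by
  classical
  set P := D.natAbs.primeFactors with hP
  set s := P.card with hs
  set Sm := P.filter (fun p : ℕ => p ≤ s) with hSm
  set k0 : ℕ := ∏ p ∈ Sm.filter (fun p : ℕ => ¬ (p : ℤ) ∣ a), p with hk0
  set PP : ℕ := ∏ p ∈ Sm, p with hPP
  have hprime : ∀ p ∈ P, p.Prime := fun p hp => Nat.prime_of_mem_primeFactors hp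
  have hdvd : ∀ p ∈ P, (p : ℤ) ∣ D := fun p hp =>
    Int.natCast_dvd.mpr (Nat.dvd_of_mem_primeFactors hp)
  -- the large primes
  set La := P.filter (fun p : ℕ => s < p ∧ ¬ (p : ℤ) ∣ b) with hLa
  -- choose t
  have hcard : ((range (s + 1)).filter fun t : ℕ => ∃ p ∈ La,
      (p : ℤ) ∣ (a + k0 * b) + t * (PP * b)).card ≤ La.card := by
    have hsub : ((range (s + 1)).filter fun t : ℕ => ∃ p ∈ La,
        (p : ℤ) ∣ (a + k0 * b) + t * (PP * b)) ⊆
        La.biUnion fun p => (range (s + 1)).filter fun t : ℕ =>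
          (p : ℤ) ∣ (a + k0 * b) + t * (PP * b) := by
      intro t ht
      simp only [mem_filter] at ht
      obtain ⟨ht1, p, hp, hpt⟩ := ht
      exact mem_biUnion.mpr ⟨p, hp, mem_filter.mpr ⟨ht1, hpt⟩⟩
    refine (card_le_card hsub).trans ?_
    refine card_biUnion_le.trans ?_
    have : ∑ p ∈ La, ((range (s + 1)).filter fun t : ℕ =>
        (p : ℤ) ∣ (a + k0 * b) + t * (PP * b)).card ≤ ∑ p ∈ La, 1 := by
      refine sum_le_sum fun p hp => ?_
      have hp' := mem_filter.mp hp
      refine card_bad p (hprime p hp'.1) s hp'.2.1 _ _ ?_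
      intro hd
      have hpi : Prime (p : ℤ) := Nat.prime_iff_prime_int.mp (hprime p hp'.1)
      rcases hpi.dvd_or_dvd hd with h1 | h1
      · have h2 : p ∣ PP := Int.natCast_dvd_natCast.mp h1
        rw [hPP] at h2
        obtain ⟨q, hq, hpq⟩ := ((hprime p hp'.1).prime.dvd_finset_prod_iff _).mp h2
        have hq' := mem_filter.mp hq
        have : p = q := (Nat.prime_dvd_prime_iff_eq (hprime p hp'.1) (hprime q hq'.1)).mp hpq
        rw [this] at hp'
        omega
      · exact hp'.2.2 h1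
    simpa using this
  have hLaP : La.card ≤ s := card_le_card (filter_subset _ _)
  obtain ⟨t, ht, hgood⟩ : ∃ t ∈ range (s + 1), ∀ p ∈ La,
      ¬ (p : ℤ) ∣ (a + k0 * b) + t * (PP * b) := by
    by_contra hcon
    push Not at hcon
    have : (range (s + 1)).filter (fun t : ℕ => ∃ p ∈ La,
        (p : ℤ) ∣ (a + k0 * b) + t * (PP * b)) = range (s + 1) := by
      refine filter_true_of_mem fun t ht => ?_
      obtain ⟨p, hp, hpt⟩ := hcon t ht
      exact ⟨p, hp, hpt⟩
    rw [this, card_range] at hcard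
    omega
  have hts : t ≤ s := by
    have := mem_range.mp ht
    omega
  refine ⟨k0 + t * PP, ?_, ?_⟩
  · -- the bound
    have hPP4 : PP ≤ 4 ^ s := by
      refine le_trans ?_ (primorial_le_four_pow s)
      rw [hPP, primorial]
      refine prod_le_prod_of_subset_of_one_le' ?_ ?_
      · intro p hp
        have hp' := mem_filter.mp hp
        simp only [mem_filter, mem_range]
        exact ⟨by omega, hprime p hp'.1⟩
      · intro p hp _
        exact (mem_filter.mp hp).2.one_le
    have hk0PP : k0 ≤ PP := by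
      refine prod_le_prod_of_subset_of_one_le' (filter_subset _ _) ?_
      intro p hp _
      exact (hprime p (mem_filter.mp hp).1).one_le
    have h2 : s + 1 ≤ 2 ^ s := Nat.lt_two_pow_self
    have h8 : (8 : ℕ) ^ s = 2 ^ s * 4 ^ s := by rw [← Nat.mul_pow]
    have : k0 + t * PP ≤ (s + 1) * PP := by nlinarith [Nat.zero_le PP]
    unfold J
    rw [← hP, ← hs, h8]
    exact this.trans (Nat.mul_le_mul h2 hPP4)
  · -- coprimality
    rw [Int.isCoprime_iff_gcd_eq_one]
    by_contra hg
    obtain ⟨p, hp, hpg⟩ := Nat.exists_prime_and_dvd hg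
    have hp1 : (p : ℤ) ∣ a + ((k0 + t * PP : ℕ) : ℤ) * b := by
      exact (Int.natCast_dvd_natCast.mpr hpg).trans (Int.gcd_dvd_left _ _)
    have hp2 : (p : ℤ) ∣ D := (Int.natCast_dvd_natCast.mpr hpg).trans (Int.gcd_dvd_right _ _)
    have hpP : p ∈ P := by
      rw [hP, Nat.mem_primeFactors]
      exact ⟨hp, Int.natCast_dvd.mp hp2, by simpa using hD⟩
    have hpi : Prime (p : ℤ) := Nat.prime_iff_prime_int.mp hp
    push_cast at hp1
    by_cases hpb : (p : ℤ) ∣ b
    · refine h p hp ?_ hpb hp2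
      have h1 : (p : ℤ) ∣ ((k0 : ℤ) + t * PP) * b := Dvd.dvd.mul_left hpb _
      exact (Int.dvd_add_left h1).mp hp1
    · by_cases hps : p ≤ s
      · have hpSm : p ∈ Sm := mem_filter.mpr ⟨hpP, hps⟩
        have hpPP : (p : ℤ) ∣ PP := Int.natCast_dvd_natCast.mpr (dvd_prod_of_mem _ hpSm)
        have h1 : (p : ℤ) ∣ (t : ℤ) * PP * b := Dvd.dvd.mul_right (Dvd.dvd.mul_left hpPP _) _
        have h2 : (p : ℤ) ∣ a + k0 * b := by
          have e : a + ((k0 : ℤ) + t * PP) * b = (a + k0 * b) + (t : ℤ) * PP * b := by ring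
          rw [e] at hp1
          exact (Int.dvd_add_left h1).mp hp1
        by_cases hpa : (p : ℤ) ∣ a
        · have h3 : (p : ℤ) ∣ k0 * b := (Int.dvd_add_right hpa).mp h2
          rcases hpi.dvd_or_dvd h3 with h4 | h4
          · have h5 : p ∣ k0 := Int.natCast_dvd_natCast.mp h4
            rw [hk0] at h5
            obtain ⟨q, hq, hpq⟩ := (hp.prime.dvd_finset_prod_iff _).mp h5
            have hq' := mem_filter.mp hq
            have hqP := (mem_filter.mp hq'.1).1
            have : p = q := (Nat.prime_dvd_prime_iff_eq hp (hprime q hqP)).mp hpq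
            exact hq'.2 (this ▸ hpa)
          · exact hpb h4
        · have h3 : p ∣ k0 := by
            rw [hk0]
            exact dvd_prod_of_mem _ (mem_filter.mpr ⟨hpSm, hpa⟩)
          have h4 : (p : ℤ) ∣ k0 * b :=
            Dvd.dvd.mul_right (Int.natCast_dvd_natCast.mpr h3) _
          exact hpa ((Int.dvd_add_left h4).mp h2)
      · have hpLa : p ∈ La := mem_filter.mpr ⟨hpP, by omega, hpb⟩
        refine hgood p hpLa ?_
        have e : a + ((k0 : ℤ) + t * PP) * b = (a + k0 * b) + t * (PP * b) := by ring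
        rwa [e] at hp1

/-- `8 ^ ω(D)` is smaller than any power -/
lemma J_pow_le (K : ℕ) (D : ℤ) (hD : D ≠ 0) :
    (J D) ^ K ≤ (8 ^ K) ^ (8 ^ K) * D.natAbs := by
  classical
  unfold J
  set P := D.natAbs.primeFactors with hP
  have hprime : ∀ p ∈ P, p.Prime := fun p hp => Nat.prime_of_mem_primeFactors hp
  rw [← pow_mul, mul_comm, pow_mul]
  have h1 : ((8 : ℕ) ^ K) ^ P.card = ∏ _p ∈ P, 8 ^ K := by rw [prod_const]
  rw [h1, ← prod_filter_mul_prod_filter_not P (fun p => p < 8 ^ K)]
  refine Nat.mul_le_mul ?_ ?_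
  · rw [prod_const]
    refine Nat.pow_le_pow_right (Nat.one_le_pow _ _ (by norm_num)) ?_
    have : P.filter (fun p => p < 8 ^ K) ⊆ range (8 ^ K) := by
      intro p hp
      exact mem_range.mpr (mem_filter.mp hp).2
    simpa using card_le_card this
  · calc ∏ _p ∈ P.filter (fun p => ¬ p < 8 ^ K), 8 ^ K
        ≤ ∏ p ∈ P.filter (fun p => ¬ p < 8 ^ K), p := by
          refine prod_le_prod' fun p hp => ?_
          exact not_lt.mp (mem_filter.mp hp).2
      _ ≤ ∏ p ∈ P, p := by
          refine prod_le_prod_of_subset_of_one_le' (filter_subset _ _) ?_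
          intro p hp _
          exact (hprime p hp).one_le
      _ ≤ D.natAbs := by
          refine Nat.le_of_dvd (Int.natAbs_pos.mpr hD) ?_
          exact Nat.prod_primeFactors_dvd _

end Pool.A6405.HX
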