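import Pool.Agent.H.MP_a6405b_nt.helper62.Units
import Pool.Agent.H.MP_a6405b_nt.helper62.Jac

/-!
MP_a6405b_nt (helper62), module Prim: the second basis vector and the numerator vector.
-/

set_option autoImplicit false

namespace Pool.A6405.HX

lemma ev_sub (z w : Fin 3 → ℤ) (i : Fin 3) : ev (z - w) i = ev z i - ev w i := by
  simp only [ev, Pi.sub_apply]
  push_cast
  ring

lemma ev_inj (z w : Fin 3 → ℤ) (h : ∀ i, ev z i = ev w i) : z = w := by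
  by_contra hne
  have h1 := one_le_abs_ev (z - w) (sub_ne_zero.mpr hne)
  rw [ev_sub, ev_sub, ev_sub, h 0, h 1, h 2] at h1
  simp at h1
  linarith

lemma nrm_mul (u z : Fin 3 → ℤ) : nrm (mul u z) = nrm u * nrm z := by
  have h : (nrm (mul u z) : ℝ) = nrm u * nrm z := by
    rw [nrm_eq, nrm_eq, nrm_eq, ev_mul, ev_mul, ev_mul]; ring
  exact_mod_cast h

/-- bound of the first coordinate by the embeddings -/
lemma coord0_le (z : Fin 3 → ℤ) (T : ℝ) (h : ∀ i, |ev z i| ≤ T) : |(z 0 : ℝ)| ≤ 48 * T := by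
  have hT : 0 ≤ T := (abs_nonneg _).trans (h 0)
  have key : vdm * z 0 = ev z 0 * (r 1 * r 2 ^ 2 - r 2 * r 1 ^ 2) -
      ev z 1 * (r 0 * r 2 ^ 2 - r 2 * r 0 ^ 2) + ev z 2 * (r 0 * r 1 ^ 2 - r 1 * r 0 ^ 2) := by
    unfold vdm ev
    ring
  have hc : ∀ i j : Fin 3, |r i * r j ^ 2 - r j * r i ^ 2| ≤ 16 := by
    intro i j
    have hi := abs_r_le i
    have hj := abs_r_le j
    have h1 : |r i * r j ^ 2| ≤ 2 * 2 ^ 2 := by
      rw [abs_mul, abs_pow]; gcongr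
    have h2 : |r j * r i ^ 2| ≤ 2 * 2 ^ 2 := by
      rw [abs_mul, abs_pow]; gcongr
    calc |r i * r j ^ 2 - r j * r i ^ 2| ≤ |r i * r j ^ 2| + |r j * r i ^ 2| := abs_sub _ _
      _ ≤ 16 := by linarith
  have h1 : |ev z 0 * (r 1 * r 2 ^ 2 - r 2 * r 1 ^ 2)| ≤ T * 16 := by
    rw [abs_mul]; exact mul_le_mul (h 0) (hc 1 2) (abs_nonneg _) hT
  have h2 : |ev z 1 * (r 0 * r 2 ^ 2 - r 2 * r 0 ^ 2)| ≤ T * 16 := by
    rw [abs_mul]; exact mul_le_mul (h 1) (hc 0 2) (abs_nonneg _) hT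
  have h3 : |ev z 2 * (r 0 * r 1 ^ 2 - r 1 * r 0 ^ 2)| ≤ T * 16 := by
    rw [abs_mul]; exact mul_le_mul (h 2) (hc 0 1) (abs_nonneg _) hT
  have h4 : |vdm * z 0| ≤ 48 * T := by
    rw [key]
    calc _ ≤ |ev z 0 * (r 1 * r 2 ^ 2 - r 2 * r 1 ^ 2) -
          ev z 1 * (r 0 * r 2 ^ 2 - r 2 * r 0 ^ 2)| +
          |ev z 2 * (r 0 * r 1 ^ 2 - r 1 * r 0 ^ 2)| := abs_add_le _ _
      _ ≤ |ev z 0 * (r 1 * r 2 ^ 2 - r 2 * r 1 ^ 2)| +
          |ev z 1 * (r 0 * r 2 ^ 2 - r 2 * r 0 ^ 2)| +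
          |ev z 2 * (r 0 * r 1 ^ 2 - r 1 * r 0 ^ 2)| := by
          gcongr; exact abs_sub _ _
      _ ≤ 48 * T := by linarith
  rw [abs_mul] at h4
  have := vdm_lo
  nlinarith [abs_nonneg (z 0 : ℝ)]

/-- the constant of the subpolynomial bound -/
def cK (K : ℕ) : ℕ := 6 ^ K * (8 ^ K) ^ (8 ^ K)

lemma one_le_cK (K : ℕ) : 1 ≤ cK K :=
  Nat.one_le_iff_ne_zero.mpr (by unfold cK; positivity)

lemma exists_n2 (n1 : Fin 3 → ℤ) (hn : |nrm n1| = 1) : ∃ (n2 z : Fin 3 → ℤ) (S : ℕ),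
    1 ≤ S ∧ (∀ K : ℕ, S ^ K ≤ cK K * ((n1 0).natAbs + 1)) ∧ (∀ i, |ev n2 i| ≤ S) ∧
    n2 ≠ 0 ∧ dt z n1 n2 = 1 := by
  have hprim : ∀ p : ℕ, p.Prime → (p : ℤ) ∣ n1 0 → (p : ℤ) ∣ n1 1 → (p : ℤ) ∣ n1 2 → False := by
    intro p hp h0 h1 h2
    have h3 : (p : ℤ) ∣ nrm n1 := by
      obtain ⟨a, ha⟩ := h0
      obtain ⟨b, hb⟩ := h1
      obtain ⟨c, hc⟩ := h2
      unfold nrm nf
      rw [ha, hb, hc]
      refine ⟨p ^ 2 * (a ^ 3 + 5 * a ^ 2 * c - a ^ 2 * b + 6 * a * c ^ 2 + c ^ 3 -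
        2 * b * c ^ 2 + b ^ 3 - b ^ 2 * c - 2 * a * b ^ 2 - a * b * c), ?_⟩
      ring
    have h4 : (p : ℤ) ∣ 1 := by
      rw [← hn]; exact (dvd_abs _ _).mpr h3
    have h5 : p ∣ 1 := by exact_mod_cast h4
    exact hp.one_lt.ne' (Nat.dvd_one.mp h5)
  by_cases hA : n1 0 = 0
  · -- the case A = 0
    have hco : IsCoprime (n1 1) (n1 2) := by
      rw [Int.isCoprime_iff_gcd_eq_one]
      by_contra hg
      obtain ⟨p, hp, hpg⟩ := Nat.exists_prime_and_dvd hg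
      exact hprim p hp (by rw [hA]; exact dvd_zero _)
        ((Int.natCast_dvd_natCast.mpr hpg).trans (Int.gcd_dvd_left _ _))
        ((Int.natCast_dvd_natCast.mpr hpg).trans (Int.gcd_dvd_right _ _))
    obtain ⟨s, t, hst⟩ := hco
    refine ⟨![1, 0, 1], ![s, t, 0], 6, by norm_num, ?_, ?_, ?_, ?_⟩
    · intro K
      unfold cK
      have h1 : 1 ≤ (8 ^ K) ^ (8 ^ K) := Nat.one_le_pow _ _ (by positivity)
      calc 6 ^ K = 6 ^ K * 1 * 1 := by ring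
        _ ≤ 6 ^ K * (8 ^ K) ^ (8 ^ K) * ((n1 0).natAbs + 1) := by
          gcongr
          omega
    · intro i
      have hi := abs_r_le i
      have h2 : r i ^ 2 ≤ 4 := by
        have := abs_le.mp hi
        nlinarith
      simp only [ev, Matrix.cons_val_zero, Matrix.cons_val_one, Matrix.cons_val]
      rw [abs_le]
      push_cast
      constructor <;> nlinarith [sq_nonneg (r i)]
    · intro h
      have := congrFun h 0
      simp at this
    · simp only [dt, Matrix.cons_val_zero, Matrix.cons_val_one, Matrix.cons_val, hA]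
      linarith
  · obtain ⟨k, hk, hco⟩ := exists_coprime_shift (-(n1 2)) (n1 1) (n1 0) hA (by
      intro p hp h1 h2 h3
      exact hprim p hp h3 h2 ((dvd_neg).mp h1))
    obtain ⟨s, t, hst⟩ := hco
    refine ⟨![0, 1, (k : ℤ)], ![s, 0, t], 6 * J (n1 0), ?_, ?_, ?_, ?_, ?_⟩
    · have := one_le_J (n1 0)
      omega
    · intro K
      have h1 := J_pow_le K (n1 0) hA
      rw [mul_pow]
      unfold cK
      calc 6 ^ K * J (n1 0) ^ K ≤ 6 ^ K * ((8 ^ K) ^ (8 ^ K) * (n1 0).natAbs) := by gcongr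
        _ ≤ 6 ^ K * (8 ^ K) ^ (8 ^ K) * ((n1 0).natAbs + 1) := by
          rw [← mul_assoc]; gcongr; omega
    · intro i
      have hi := abs_r_le i
      have h2 : r i ^ 2 ≤ 4 := by
        have := abs_le.mp hi
        nlinarith
      have hJ : (1 : ℝ) ≤ J (n1 0) := by exact_mod_cast one_le_J (n1 0)
      have hkJ : (k : ℝ) ≤ J (n1 0) := by exact_mod_cast hk
      have hk0 : (0 : ℝ) ≤ k := by positivity
      simp only [ev, Matrix.cons_val_zero, Matrix.cons_val_one, Matrix.cons_val]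
      have h3 : (k : ℝ) * r i ^ 2 ≤ J (n1 0) * 4 := by
        exact mul_le_mul hkJ h2 (sq_nonneg _) (by linarith)
      have h4 : 0 ≤ (k : ℝ) * r i ^ 2 := by positivity
      have h5 := abs_le.mp hi
      rw [abs_le]
      push_cast
      constructor <;> linarith [h5.1, h5.2]
    · intro h
      have := congrFun h 1
      simp at this
    · simp only [dt, Matrix.cons_val_zero, Matrix.cons_val_one, Matrix.cons_val]
      linear_combination hst

lemma J_mono (D' D : ℤ) (hD : D ≠ 0) (h : D' ∣ D) : J D' ≤ J D := by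
  unfold J
  refine Nat.pow_le_pow_right (by norm_num) (Finset.card_le_card ?_)
  exact Nat.primeFactors_mono (Int.natAbs_dvd_natAbs.mpr h) (Int.natAbs_ne_zero.mpr hD)

lemma exists_theta (a b c N : ℤ) (hN : N ≠ 0)
    (hprim : ∀ p : ℕ, p.Prime → (p : ℤ) ∣ a → (p : ℤ) ∣ b → (p : ℤ) ∣ c → False)
    (θ : Fin 3 → ℤ) : ∃ θ' : Fin 3 → ℤ, (∀ i, |(θ' i : ℝ) - θ i| ≤ (J N : ℝ) ^ 2) ∧
      IsCoprime (a * θ' 0 + b * θ' 1 + c * θ' 2) N := by
  have hD0 : ((Int.gcd c N : ℕ) : ℤ) ≠ 0 := by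
    have : Int.gcd c N ≠ 0 := by
      intro h
      exact hN (Int.gcd_eq_zero_iff.mp h).2
    exact_mod_cast this
  obtain ⟨m, hm, hm'⟩ := exists_coprime_shift a b ((Int.gcd c N : ℕ) : ℤ) hD0 (by
    intro p hp h1 h2 h3
    exact hprim p hp h1 h2 (h3.trans (Int.gcd_dvd_left _ _)))
  obtain ⟨n, hn, hn'⟩ := exists_coprime_shift (a + m * b) c N hN (by
    intro p hp h1 h2 h3
    have h4 : (p : ℤ) ∣ ((Int.gcd c N : ℕ) : ℤ) := Int.dvd_coe_gcd h2 h3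
    obtain ⟨s, t, hst⟩ := hm'
    have h5 : (p : ℤ) ∣ 1 := by
      rw [← hst]
      exact dvd_add (Dvd.dvd.mul_left h1 _) (Dvd.dvd.mul_left h4 _)
    have h6 : p ∣ 1 := by exact_mod_cast h5
    exact hp.one_lt.ne' (Nat.dvd_one.mp h6))
  obtain ⟨t, ht, ht'⟩ := exists_coprime_shift (a * θ 0 + b * θ 1 + c * θ 2)
    (a + m * b + n * c) N hN (by
    intro p hp h1 h2 h3
    obtain ⟨s, t, hst⟩ := hn'
    have h5 : (p : ℤ) ∣ 1 := by
      rw [← hst]
      exact dvd_add (Dvd.dvd.mul_left h2 _) (Dvd.dvd.mul_left h3 _)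
    have h6 : p ∣ 1 := by exact_mod_cast h5
    exact hp.one_lt.ne' (Nat.dvd_one.mp h6))
  have hmJ : m ≤ J N := hm.trans (J_mono _ _ hN (Int.gcd_dvd_right _ _))
  have hJ1 : 1 ≤ J N := one_le_J N
  have bd : ∀ x : ℕ, x ≤ J N → |((t : ℝ) * x)| ≤ (J N : ℝ) ^ 2 := by
    intro x hx
    rw [abs_of_nonneg (by positivity), sq]
    have h1 : (t : ℝ) ≤ J N := by exact_mod_cast ht
    have h2 : (x : ℝ) ≤ J N := by exact_mod_cast hx
    exact mul_le_mul h1 h2 (by positivity) (by positivity)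
  refine ⟨![θ 0 + t * 1, θ 1 + t * m, θ 2 + t * n], ?_, ?_⟩
  · intro i
    fin_cases i
    · show |((θ 0 + t * 1 : ℤ) : ℝ) - θ 0| ≤ _
      have := bd 1 hJ1
      push_cast at this ⊢
      have e : (θ 0 : ℝ) + t * 1 - θ 0 = (t : ℝ) * 1 := by ring
      rw [e]; exact this
    · show |((θ 1 + t * m : ℤ) : ℝ) - θ 1| ≤ _
      have := bd m hmJ
      push_cast at this ⊢
      have e : (θ 1 : ℝ) + t * m - θ 1 = (t : ℝ) * m := by ring
      rw [e]; exact this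
    · show |((θ 2 + t * n : ℤ) : ℝ) - θ 2| ≤ _
      have := bd n hn
      push_cast at this ⊢
      have e : (θ 2 : ℝ) + t * n - θ 2 = (t : ℝ) * n := by ring
      rw [e]; exact this
  · have e : a * (![θ 0 + t * 1, θ 1 + t * m, θ 2 + t * n] : Fin 3 → ℤ) 0 +
        b * (![θ 0 + t * 1, θ 1 + t * m, θ 2 + t * n] : Fin 3 → ℤ) 1 +
        c * (![θ 0 + t * 1, θ 1 + t * m, θ 2 + t * n] : Fin 3 → ℤ) 2 =
        a * θ 0 + b * θ 1 + c * θ 2 + t * (a + m * b + n * c) := by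
      show a * (θ 0 + t * 1) + b * (θ 1 + t * m) + c * (θ 2 + t * n) = _
      ring
    rw [e]
    exact ht'

end Pool.A6405.HX
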