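import Mathlib

/-!
MP_a6405b_nt (helper62), module Ring: the ring `Z[2 cos (2 pi / 7)]` in coordinates
`1, w, w ^ 2`: real embeddings, multiplication, norm, determinants.
-/

set_option autoImplicit false

namespace Pool.A6405.HX

lemma exists_root : ∃ x : ℝ, 1.24 < x ∧ x < 1.25 ∧ x ^ 3 + x ^ 2 - 2 * x - 1 = 0 := by
  have hc : ContinuousOn (fun x : ℝ => x ^ 3 + x ^ 2 - 2 * x - 1) (Set.Icc 1.24 1.25) := by
    fun_prop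
  have h := intermediate_value_Icc (by norm_num : (1.24 : ℝ) ≤ 1.25) hc
  have h0 : (0 : ℝ) ∈ Set.Icc ((fun x : ℝ => x ^ 3 + x ^ 2 - 2 * x - 1) 1.24)
      ((fun x : ℝ => x ^ 3 + x ^ 2 - 2 * x - 1) 1.25) := by
    constructor <;> norm_num
  obtain ⟨x, hx, hx0⟩ := h h0
  simp only at hx0
  refine ⟨x, lt_of_le_of_ne hx.1 ?_, lt_of_le_of_ne hx.2 ?_, hx0⟩
  · rintro rfl
    norm_num at hx0
  · rintro rfl
    norm_num at hx0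

noncomputable def w0 : ℝ := exists_root.choose

lemma w0_lo : (1.24 : ℝ) < w0 := exists_root.choose_spec.1

lemma w0_hi : w0 < (1.25 : ℝ) := exists_root.choose_spec.2.1

lemma w0_eq : w0 ^ 3 + w0 ^ 2 - 2 * w0 - 1 = 0 := exists_root.choose_spec.2.2

/-- the three conjugates -/
noncomputable def r : Fin 3 → ℝ := ![w0, w0 ^ 2 - 2, 1 - w0 - w0 ^ 2]

lemma r0 : r 0 = w0 := rfl
lemma r1 : r 1 = w0 ^ 2 - 2 := rfl
lemma r2 : r 2 = 1 - w0 - w0 ^ 2 := rfl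

lemma r1_lo : (-0.47 : ℝ) < r 1 := by
  rw [r1]; nlinarith [w0_lo]

lemma r1_hi : r 1 < (-0.43 : ℝ) := by
  rw [r1]; nlinarith [w0_lo, w0_hi]

lemma r2_lo : (-1.82 : ℝ) < r 2 := by
  rw [r2]; nlinarith [w0_lo, w0_hi]

lemma r2_hi : r 2 < (-1.77 : ℝ) := by
  rw [r2]; nlinarith [w0_lo, w0_hi]

lemma r_eq (i : Fin 3) : r i ^ 3 = 1 + 2 * r i - r i ^ 2 := by
  fin_cases i
  · show w0 ^ 3 = 1 + 2 * w0 - w0 ^ 2
    linarith [w0_eq]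
  · show (w0 ^ 2 - 2) ^ 3 = 1 + 2 * (w0 ^ 2 - 2) - (w0 ^ 2 - 2) ^ 2
    linear_combination (1 - 2 * w0 - w0 ^ 2 + w0 ^ 3) * w0_eq
  · show (1 - w0 - w0 ^ 2) ^ 3 = 1 + 2 * (1 - w0 - w0 ^ 2) - (1 - w0 - w0 ^ 2) ^ 2
    linear_combination (1 + w0 - 2 * w0 ^ 2 - w0 ^ 3) * w0_eq

lemma abs_r_le (i : Fin 3) : |r i| ≤ 2 := by
  rw [abs_le]
  fin_cases i
  · show (-2 : ℝ) ≤ r 0 ∧ r 0 ≤ 2
    rw [r0]
    constructor <;> linarith [w0_lo, w0_hi]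
  · show (-2 : ℝ) ≤ r 1 ∧ r 1 ≤ 2
    constructor <;> linarith [r1_lo, r1_hi]
  · show (-2 : ℝ) ≤ r 2 ∧ r 2 ≤ 2
    constructor <;> linarith [r2_lo, r2_hi]

/-- embeddings -/
noncomputable def ev (z : Fin 3 → ℤ) (i : Fin 3) : ℝ := z 0 + z 1 * r i + z 2 * r i ^ 2

/-- multiplication -/
def mul (u z : Fin 3 → ℤ) : Fin 3 → ℤ :=
  ![u 0 * z 0 + (u 1 * z 2 + u 2 * z 1) - u 2 * z 2,
    u 0 * z 1 + u 1 * z 0 + 2 * (u 1 * z 2 + u 2 * z 1) - u 2 * z 2,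
    u 0 * z 2 + u 1 * z 1 + u 2 * z 0 - (u 1 * z 2 + u 2 * z 1) + 3 * (u 2 * z 2)]

lemma mul_0 (u z : Fin 3 → ℤ) : mul u z 0 =
    u 0 * z 0 + (u 1 * z 2 + u 2 * z 1) - u 2 * z 2 := rfl
lemma mul_1 (u z : Fin 3 → ℤ) : mul u z 1 =
    u 0 * z 1 + u 1 * z 0 + 2 * (u 1 * z 2 + u 2 * z 1) - u 2 * z 2 := rfl
lemma mul_2 (u z : Fin 3 → ℤ) : mul u z 2 =
    u 0 * z 2 + u 1 * z 1 + u 2 * z 0 - (u 1 * z 2 + u 2 * z 1) + 3 * (u 2 * z 2) := rfl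

lemma ev_mul (u z : Fin 3 → ℤ) (i : Fin 3) : ev (mul u z) i = ev u i * ev z i := by
  unfold ev
  rw [mul_0, mul_1, mul_2]
  push_cast
  have h := r_eq i
  linear_combination (-((u 1 : ℝ) * z 2 + u 2 * z 1) - u 2 * z 2 * (r i - 1)) * h

/-- norm form -/
def nf (a b c : ℤ) : ℤ := a ^ 3 + 5 * a ^ 2 * c - a ^ 2 * b + 6 * a * c ^ 2 + c ^ 3 -
  2 * b * c ^ 2 + b ^ 3 - b ^ 2 * c - 2 * a * b ^ 2 - a * b * c

def nrm (z : Fin 3 → ℤ) : ℤ := nf (z 0) (z 1) (z 2)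

lemma nrm_eq (z : Fin 3 → ℤ) : (nrm z : ℝ) = ev z 0 * ev z 1 * ev z 2 := by
  unfold nrm nf ev
  rw [r0, r1, r2]
  push_cast
  generalize (z 0 : ℝ) = a
  generalize (z 1 : ℝ) = b
  generalize (z 2 : ℝ) = c
  have h := w0_eq
  generalize w0 = x at h ⊢
  linear_combination (-(1*c^3 + (-2)*c^3*x + 1*c^3*x^2 + 5*c^3*x^3 + (-3)*c^3*x^4 +
    (-4)*c^3*x^5 + 1*c^3*x^6 + 1*c^3*x^7 + (-2)*b*c^2 + 4*b*c^2*x^2 + (-2)*b*c^2*x^3 +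
    (-3)*b*c^2*x^4 + 1*b*c^2*x^5 + 1*b*c^2*x^6 + (-1)*b^2*c + 1*b^2*c*x^2 + 1*b^3 +
    (-1)*b^3*x^2 + 2*a*c^2 + 4*a*c^2*x + (-3)*a*c^2*x^2 + (-2)*a*c^2*x^3 + 1*a*c^2*x^4 +
    1*a*c^2*x^5 + (-3)*a*b*c + 1*a*b*c*x + 3*a*b*c*x^2 + (-1)*a*b^2*x + 2*a^2*c*x)) * h

lemma nf_mod_two : ∀ a b c : ZMod 2, a ^ 3 + 5 * a ^ 2 * c - a ^ 2 * b + 6 * a * c ^ 2 + c ^ 3 -
    2 * b * c ^ 2 + b ^ 3 - b ^ 2 * c - 2 * a * b ^ 2 - a * b * c = 0 →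
    a = 0 ∧ b = 0 ∧ c = 0 := by
  decide

lemma nf_even (a b c : ℤ) (h : nf a b c = 0) : (2 : ℤ) ∣ a ∧ (2 : ℤ) ∣ b ∧ (2 : ℤ) ∣ c := by
  have h1 : ((nf a b c : ℤ) : ZMod 2) = 0 := by rw [h]; rfl
  unfold nf at h1
  push_cast at h1
  obtain ⟨ha, hb, hc⟩ := nf_mod_two _ _ _ h1
  exact ⟨(ZMod.intCast_zmod_eq_zero_iff_dvd a 2).mp ha,
    (ZMod.intCast_zmod_eq_zero_iff_dvd b 2).mp hb,
    (ZMod.intCast_zmod_eq_zero_iff_dvd c 2).mp hc⟩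

lemma nf_pow (n : ℕ) : ∀ a b c : ℤ, nf a b c = 0 →
    (2 : ℤ) ^ n ∣ a ∧ (2 : ℤ) ^ n ∣ b ∧ (2 : ℤ) ^ n ∣ c := by
  induction n with
  | zero => intro a b c _; simp
  | succ n ih =>
    intro a b c h
    obtain ⟨⟨a', ha⟩, ⟨b', hb⟩, ⟨c', hc⟩⟩ := nf_even a b c h
    have h' : nf a' b' c' = 0 := by
      rw [ha, hb, hc] at h
      unfold nf at h ⊢
      have : 8 * (a' ^ 3 + 5 * a' ^ 2 * c' - a' ^ 2 * b' + 6 * a' * c' ^ 2 + c' ^ 3 -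
        2 * b' * c' ^ 2 + b' ^ 3 - b' ^ 2 * c' - 2 * a' * b' ^ 2 - a' * b' * c') = 0 := by
        rw [← h]; ring
      linarith
    obtain ⟨h1, h2, h3⟩ := ih a' b' c' h'
    rw [ha, hb, hc, pow_succ']
    exact ⟨mul_dvd_mul_left 2 h1, mul_dvd_mul_left 2 h2, mul_dvd_mul_left 2 h3⟩

lemma eq_zero_of_pow_dvd (a : ℤ) (h : ∀ n : ℕ, (2 : ℤ) ^ n ∣ a) : a = 0 := by
  by_contra hne
  have h1 := h a.natAbs
  have h2 : |(2 : ℤ) ^ a.natAbs| ≤ |a| := by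
    rw [← Int.natCast_natAbs, ← Int.natCast_natAbs]
    exact_mod_cast Nat.le_of_dvd (Int.natAbs_pos.mpr hne) (Int.natAbs_dvd_natAbs.mpr h1)
  rw [abs_of_pos (by positivity : (0 : ℤ) < 2 ^ a.natAbs), ← Int.natCast_natAbs a] at h2
  have h3 : a.natAbs < 2 ^ a.natAbs := Nat.lt_two_pow_self
  have h4 : ((2 : ℤ) ^ a.natAbs) = ((2 ^ a.natAbs : ℕ) : ℤ) := by push_cast; rfl
  rw [h4] at h2
  have h5 : 2 ^ a.natAbs ≤ a.natAbs := by exact_mod_cast h2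
  omega

lemma nrm_ne_zero (z : Fin 3 → ℤ) (h : z ≠ 0) : nrm z ≠ 0 := by
  intro h0
  apply h
  have hp := fun n => nf_pow n (z 0) (z 1) (z 2) h0
  funext i
  fin_cases i
  · exact eq_zero_of_pow_dvd _ fun n => (hp n).1
  · exact eq_zero_of_pow_dvd _ fun n => (hp n).2.1
  · exact eq_zero_of_pow_dvd _ fun n => (hp n).2.2

lemma one_le_abs_ev (z : Fin 3 → ℤ) (h : z ≠ 0) : 1 ≤ |ev z 0| * |ev z 1| * |ev z 2| := by
  rw [← abs_mul, ← abs_mul, ← nrm_eq]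
  have := Int.one_le_abs (nrm_ne_zero z h)
  exact_mod_cast this

/-- determinant of three vectors -/
def dt (z w v : Fin 3 → ℤ) : ℤ :=
  z 0 * (w 1 * v 2 - w 2 * v 1) - z 1 * (w 0 * v 2 - w 2 * v 0) + z 2 * (w 0 * v 1 - w 1 * v 0)

lemma dt_mul (u z w v : Fin 3 → ℤ) :
    dt (mul u z) (mul u w) (mul u v) = nrm u * dt z w v := by
  let Mu : Matrix (Fin 3) (Fin 3) ℤ :=
    !![u 0, u 2, u 1 - u 2; u 1, u 0 + 2 * u 2, 2 * u 1 - u 2; u 2, u 1 - u 2,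
      u 0 - u 1 + 3 * u 2]
  let Z : Matrix (Fin 3) (Fin 3) ℤ := !![z 0, w 0, v 0; z 1, w 1, v 1; z 2, w 2, v 2]
  have h1 : Mu.det = nrm u := by
    simp only [Mu, Matrix.det_fin_three, nrm, nf]
    simp
    ring
  have h2 : Z.det = dt z w v := by
    simp only [Z, Matrix.det_fin_three, dt]
    simp
    ring
  have h3 : Mu * Z = !![mul u z 0, mul u w 0, mul u v 0; mul u z 1, mul u w 1, mul u v 1;
      mul u z 2, mul u w 2, mul u v 2] := by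
    ext i j
    fin_cases i <;> fin_cases j <;>
      simp [Mu, Z, Matrix.mul_apply, Fin.sum_univ_three, mul_0, mul_1, mul_2] <;> ring
  have h4 : (Mu * Z).det = dt (mul u z) (mul u w) (mul u v) := by
    rw [h3, Matrix.det_fin_three]
    simp only [dt]
    simp
    ring
  rw [← h4, Matrix.det_mul, h1, h2]

/-- the Vandermonde determinant -/
noncomputable def vdm : ℝ := (r 1 - r 0) * (r 2 - r 0) * (r 2 - r 1)

lemma vdm_hi : |vdm| ≤ 7.4 := by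
  have h0 := w0_lo
  have h0' := w0_hi
  rw [← r0] at h0 h0'
  have a : |r 1 - r 0| ≤ 1.72 := by
    rw [abs_le]; constructor <;> linarith [r1_lo, r1_hi]
  have b : |r 2 - r 0| ≤ 3.07 := by
    rw [abs_le]; constructor <;> linarith [r2_lo, r2_hi]
  have c : |r 2 - r 1| ≤ 1.39 := by
    rw [abs_le]; constructor <;> linarith [r2_lo, r2_hi, r1_lo, r1_hi]
  unfold vdm
  rw [abs_mul, abs_mul]
  calc |r 1 - r 0| * |r 2 - r 0| * |r 2 - r 1| ≤ 1.72 * 3.07 * 1.39 := by gcongr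
    _ ≤ 7.4 := by norm_num

lemma vdm_lo : 1 ≤ |vdm| := by
  have h0 := w0_lo
  have h0' := w0_hi
  rw [← r0] at h0 h0'
  have a : 1 ≤ |r 1 - r 0| := by
    rw [abs_sub_comm]
    exact le_trans (by linarith [r1_lo, r1_hi]) (le_abs_self _)
  have b : 1 ≤ |r 2 - r 0| := by
    rw [abs_sub_comm]
    exact le_trans (by linarith [r2_lo, r2_hi]) (le_abs_self _)
  have c : 1 ≤ |r 2 - r 1| := by
    rw [abs_sub_comm]
    exact le_trans (by linarith [r2_lo, r2_hi, r1_lo, r1_hi]) (le_abs_self _)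
  unfold vdm
  rw [abs_mul, abs_mul]
  calc (1 : ℝ) = 1 * 1 * 1 := by norm_num
    _ ≤ _ := by gcongr

lemma ev_dt (z w v : Fin 3 → ℤ) :
    ev z 0 * (ev w 1 * ev v 2 - ev w 2 * ev v 1) - ev z 1 * (ev w 0 * ev v 2 - ev w 2 * ev v 0) +
      ev z 2 * (ev w 0 * ev v 1 - ev w 1 * ev v 0) = vdm * dt z w v := by
  unfold ev vdm dt
  push_cast
  ring

end Pool.A6405.HX
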