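import Pool.Agent.H.MP_a6405b_nt.helper62.Ring

/-!
MP_a6405b_nt (helper62), module Units: three units, each large at one place and of size about
`X ^ (-1/2)` at the two others.
-/

set_option autoImplicit false

namespace Pool.A6405.HX

def pw (u : Fin 3 → ℤ) : ℕ → Fin 3 → ℤ
  | 0 => ![1, 0, 0]
  | n + 1 => mul u (pw u n)

lemma ev_pw (u : Fin 3 → ℤ) (n : ℕ) (i : Fin 3) : ev (pw u n) i = ev u i ^ n := by
  induction n with
  | zero => simp [pw, ev]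
  | succ n ih => rw [pw, ev_mul, ih, pow_succ']

def e0 : Fin 3 → ℤ := ![0, 1, 0]
def e1 : Fin 3 → ℤ := ![-2, 0, 1]
def e2 : Fin 3 → ℤ := ![1, -1, -1]

lemma ev_e0 (i : Fin 3) : ev e0 i = r i := by simp [ev, e0]
lemma ev_e1 (i : Fin 3) : ev e1 i = r i ^ 2 - 2 := by simp [ev, e1]; ring
lemma ev_e2 (i : Fin 3) : ev e2 i = 1 - r i - r i ^ 2 := by simp [ev, e2]; ring

lemma rel01 : r 0 ^ 2 - 2 = r 1 := by rw [r0, r1]
lemma rel12 : r 1 ^ 2 - 2 = r 2 := by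
  rw [r1, r2]; linear_combination (-1 + w0) * w0_eq
lemma rel20 : r 2 ^ 2 - 2 = r 0 := by
  rw [r2, r0]; linear_combination (1 + w0) * w0_eq
lemma rl02 : 1 - r 0 - r 0 ^ 2 = r 2 := by rw [r0, r2]
lemma rl10 : 1 - r 1 - r 1 ^ 2 = r 0 := by
  rw [r1, r0]; linear_combination (1 - w0) * w0_eq
lemma rl21 : 1 - r 2 - r 2 ^ 2 = r 1 := by
  rw [r1, r2]; linear_combination (-1 - w0) * w0_eq
lemma rprod : r 0 * r 1 * r 2 = 1 := by
  rw [r0, r1, r2]; linear_combination (1 - w0 ^ 2) * w0_eq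

lemma e10 : ev e1 0 = r 1 := by rw [ev_e1, rel01]
lemma e11 : ev e1 1 = r 2 := by rw [ev_e1, rel12]
lemma e12 : ev e1 2 = r 0 := by rw [ev_e1, rel20]
lemma e20 : ev e2 0 = r 2 := by rw [ev_e2, rl02]
lemma e21 : ev e2 1 = r 0 := by rw [ev_e2, rl10]
lemma e22 : ev e2 2 = r 1 := by rw [ev_e2, rl21]

/-- the numerical heart -/
lemma exists_exponents (X0 : ℝ) : ∃ (i j : ℕ),
    X0 ≤ |r 0| ^ i * |r 2| ^ j ∧ 1 ≤ |r 0| ^ i * |r 2| ^ j ∧
    |r 2| ^ i * |r 1| ^ j ≤ |r 1| ^ i * |r 0| ^ j ∧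
    |r 1| ^ i * |r 0| ^ j ≤ 3 * (|r 2| ^ i * |r 1| ^ j) := by
  have hA : (1.24 : ℝ) < |r 0| := by
    rw [r0]; exact lt_of_lt_of_le w0_lo (le_abs_self _)
  have hA' : |r 0| < (1.25 : ℝ) := by
    rw [r0, abs_of_pos (by linarith [w0_lo])]; exact w0_hi
  have hB : (0.43 : ℝ) < |r 1| := by
    rw [abs_of_neg (by linarith [r1_hi])]; linarith [r1_hi]
  have hB' : |r 1| < (0.47 : ℝ) := by
    rw [abs_of_neg (by linarith [r1_hi])]; linarith [r1_lo]
  have hC : (1.77 : ℝ) < |r 2| := by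
    rw [abs_of_neg (by linarith [r2_hi])]; linarith [r2_hi]
  generalize |r 0| = A at *
  generalize |r 1| = B at *
  generalize |r 2| = C at *
  have hB0 : 0 < B := by linarith
  have hA0 : 0 < A := by linarith
  have hC0 : 0 < C := by linarith
  obtain ⟨i, hi⟩ := pow_unbounded_of_one_lt X0 (by linarith : 1 < A)
  have h1 : 1 ≤ (C / B) ^ i := one_le_pow₀ (by rw [one_le_div hB0]; linarith)
  have h2 : 1 < A / B := by rw [one_lt_div hB0]; linarith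
  obtain ⟨n, hn1, hn2⟩ := exists_nat_pow_near h1 h2
  refine ⟨i, n + 1, ?_, ?_, ?_, ?_⟩
  · have : 1 ≤ C ^ (n + 1) := one_le_pow₀ (by linarith)
    nlinarith [pow_pos hA0 i]
  · have h3 : 1 ≤ C ^ (n + 1) := one_le_pow₀ (by linarith)
    have h4 : 1 ≤ A ^ i := one_le_pow₀ (by linarith)
    nlinarith
  · rw [div_pow, div_pow, div_lt_div_iff₀ (by positivity) (by positivity)] at hn2
    nlinarith
  · have h3 : A / B ≤ 3 := by rw [div_le_iff₀ hB0]; linarith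
    have h4 : (A / B) ^ (n + 1) ≤ 3 * (C / B) ^ i := by
      rw [pow_succ']
      exact mul_le_mul h3 hn1 (by positivity) (by norm_num)
    rw [div_pow, div_pow, div_le_iff₀ (by positivity), mul_div_assoc', div_mul_eq_mul_div,
      le_div_iff₀ (by positivity)] at h4
    nlinarith

/-- balanced units -/
structure BU (X : ℝ) (u1 u2 u3 v : Fin 3 → ℤ) : Prop where
  d1 : |ev u1 0| = X
  d2 : |ev u2 1| = X
  d3 : |ev u3 2| = X
  o11 : |ev u1 1| ^ 2 * X ≤ 3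
  o12 : |ev u1 2| ^ 2 * X ≤ 3
  o20 : |ev u2 0| ^ 2 * X ≤ 3
  o22 : |ev u2 2| ^ 2 * X ≤ 3
  o30 : |ev u3 0| ^ 2 * X ≤ 3
  o31 : |ev u3 1| ^ 2 * X ≤ 3
  inv : ∀ i, ev u2 i * ev v i = 1
  vb : ∀ i, |ev v i| ^ 2 ≤ 3 * X
  n1 : |nrm u1| = 1
  n2 : |nrm u2| = 1
  nv : |nrm v| = 1

lemma exists_BU (X0 : ℝ) : ∃ X : ℝ, X0 ≤ X ∧ 1 ≤ X ∧ ∃ u1 u2 u3 v : Fin 3 → ℤ,
    BU X u1 u2 u3 v := by
  obtain ⟨i, j, hX0, hX1, hy1, hy2⟩ := exists_exponents X0
  set X := |r 0| ^ i * |r 2| ^ j with hX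
  set y := |r 1| ^ i * |r 0| ^ j with hy
  set y' := |r 2| ^ i * |r 1| ^ j with hy'
  have hr0 : 0 < |r 0| := by
    rw [r0, abs_of_pos (by linarith [w0_lo])]; linarith [w0_lo]
  have hr1 : 0 < |r 1| := abs_pos.mpr (by linarith [r1_hi])
  have hr2 : 0 < |r 2| := abs_pos.mpr (by linarith [r2_hi])
  have hXp : 0 < X := by positivity
  have hyp : 0 < y := by positivity
  have hyp' : 0 < y' := by positivity
  have hprod : X * y * y' = 1 := by
    have h : |r 0| * |r 1| * |r 2| = 1 := by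
      rw [← abs_mul, ← abs_mul, rprod, abs_one]
    calc X * y * y' = (|r 0| * |r 1| * |r 2|) ^ i * (|r 0| * |r 1| * |r 2|) ^ j := by
          rw [hX, hy, hy', mul_pow, mul_pow, mul_pow, mul_pow]; ring
      _ = 1 := by rw [h]; simp
  have hb1 : y ^ 2 * X ≤ 3 := by nlinarith [mul_pos hXp hyp]
  have hb2 : y' ^ 2 * X ≤ 3 := by nlinarith [mul_pos hXp hyp']
  -- values
  let u1 := mul (pw e0 i) (pw e2 j)
  let u2 := mul (pw e2 i) (pw e1 j)
  let u3 := mul (pw e1 i) (pw e0 j)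
  let v := mul (pw (mul e0 e1) i) (pw (mul e0 e2) j)
  have E1 : ∀ k, ev u1 k = ev e0 k ^ i * ev e2 k ^ j := fun k => by
    simp only [u1, ev_mul, ev_pw]
  have E2 : ∀ k, ev u2 k = ev e2 k ^ i * ev e1 k ^ j := fun k => by
    simp only [u2, ev_mul, ev_pw]
  have E3 : ∀ k, ev u3 k = ev e1 k ^ i * ev e0 k ^ j := fun k => by
    simp only [u3, ev_mul, ev_pw]
  have Ev : ∀ k, ev v k = (ev e0 k * ev e1 k) ^ i * (ev e0 k * ev e2 k) ^ j := fun k => by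
    simp only [v, ev_mul, ev_pw]
  have a10 : |ev u1 0| = X := by rw [E1, ev_e0, e20, abs_mul, abs_pow, abs_pow]
  have a11 : |ev u1 1| = y := by rw [E1, ev_e0, e21, abs_mul, abs_pow, abs_pow]
  have a12 : |ev u1 2| = y' := by rw [E1, ev_e0, e22, abs_mul, abs_pow, abs_pow]
  have a20 : |ev u2 0| = y' := by rw [E2, e20, e10, abs_mul, abs_pow, abs_pow]
  have a21 : |ev u2 1| = X := by rw [E2, e21, e11, abs_mul, abs_pow, abs_pow]
  have a22 : |ev u2 2| = y := by rw [E2, e22, e12, abs_mul, abs_pow, abs_pow]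
  have a30 : |ev u3 0| = y := by rw [E3, ev_e0, e10, abs_mul, abs_pow, abs_pow]
  have a31 : |ev u3 1| = y' := by rw [E3, ev_e0, e11, abs_mul, abs_pow, abs_pow]
  have a32 : |ev u3 2| = X := by rw [E3, ev_e0, e12, abs_mul, abs_pow, abs_pow]
  have hp : ∀ k, ev e0 k * ev e1 k * ev e2 k = 1 := by
    intro k
    fin_cases k
    · show ev e0 0 * ev e1 0 * ev e2 0 = 1
      rw [ev_e0, e10, e20, rprod]
    · show ev e0 1 * ev e1 1 * ev e2 1 = 1
      rw [ev_e0, e11, e21]; linarith [rprod]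
    · show ev e0 2 * ev e1 2 * ev e2 2 = 1
      rw [ev_e0, e12, e22]; linarith [rprod]
  have hinv : ∀ k, ev u2 k * ev v k = 1 := by
    intro k
    rw [E2, Ev]
    calc ev e2 k ^ i * ev e1 k ^ j * ((ev e0 k * ev e1 k) ^ i * (ev e0 k * ev e2 k) ^ j)
        = (ev e0 k * ev e1 k * ev e2 k) ^ i * (ev e0 k * ev e1 k * ev e2 k) ^ j := by
          rw [mul_pow, mul_pow, mul_pow, mul_pow, mul_pow, mul_pow]; ring
      _ = 1 := by rw [hp]; simp
  have hn : ∀ (u : Fin 3 → ℤ), |ev u 0| * |ev u 1| * |ev u 2| = 1 → |nrm u| = 1 := by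
    intro u hu
    have h1 : |(nrm u : ℝ)| = 1 := by rw [nrm_eq, abs_mul, abs_mul, hu]
    exact_mod_cast h1
  have hvi : ∀ k, |ev v k| * |ev u2 k| = 1 := by
    intro k
    rw [← abs_mul, mul_comm, hinv, abs_one]
  refine ⟨X, hX0, hX1, u1, u2, u3, v, ?_⟩
  refine ⟨a10, a21, a32, ?_, ?_, ?_, ?_, ?_, ?_, hinv, ?_, ?_, ?_, ?_⟩
  · rw [a11]; exact hb1
  · rw [a12]; exact hb2
  · rw [a20]; exact hb2
  · rw [a22]; exact hb1
  · rw [a30]; exact hb1
  · rw [a31]; exact hb2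
  · intro k
    have hk := hvi k
    -- |v| = 1 / |u2|, and 3 X |u2|^2 >= 1
    have key : 1 ≤ 3 * X * |ev u2 k| ^ 2 := by
      fin_cases k
      · show 1 ≤ 3 * X * |ev u2 0| ^ 2
        rw [a20]; nlinarith [mul_pos hXp hyp']
      · show 1 ≤ 3 * X * |ev u2 1| ^ 2
        rw [a21]; nlinarith [mul_pos hXp hXp]
      · show 1 ≤ 3 * X * |ev u2 2| ^ 2
        rw [a22]; nlinarith [mul_pos hXp hyp]
    have h0 : 0 ≤ |ev v k| ^ 2 := by positivity
    calc |ev v k| ^ 2 = |ev v k| ^ 2 * 1 := by ring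
      _ ≤ |ev v k| ^ 2 * (3 * X * |ev u2 k| ^ 2) := mul_le_mul_of_nonneg_left key h0
      _ = 3 * X * (|ev v k| * |ev u2 k|) ^ 2 := by ring
      _ = 3 * X := by rw [hk]; ring
  · apply hn; rw [a10, a11, a12]; exact hprod
  · apply hn; rw [a20, a21, a22]; linarith
  · apply hn
    have h0 := hvi 0
    have h1 := hvi 1
    have h2 := hvi 2
    have h3 : |ev u2 0| * |ev u2 1| * |ev u2 2| = 1 := by rw [a20, a21, a22]; linarith
    calc |ev v 0| * |ev v 1| * |ev v 2|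
        = (|ev v 0| * |ev v 1| * |ev v 2|) * (|ev u2 0| * |ev u2 1| * |ev u2 2|) := by
          rw [h3]; ring
      _ = (|ev v 0| * |ev u2 0|) * (|ev v 1| * |ev u2 1|) * (|ev v 2| * |ev u2 2|) := by ring
      _ = 1 := by rw [h0, h1, h2]; ring

end Pool.A6405.HX
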